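import Pool.Agent.Helper878_bg.Main

/-!
# Special cases of the promise
-/

set_option autoImplicit false
set_option linter.unusedSectionVars false

namespace Pool.Agent.Helper878_bg

open Finset Pool.Agent.NPC Pool.Agent.H671R2.SF Pool.Agent.Helper878_dcs Pool.Agent.Helper878_mm
open Pool.Agent.Helper878_bs
open scoped Classical

variable {I : Inst}

theorem tri (hF : Free threeP1 (graph I.1 I.2.1)) (u v w : {v // v ∈ I.1}) (h1 : u ≠ v)
    (h2 : u ≠ w) (h3 : v ≠ w) : (graph I.1 I.2.1).Adj u v ∨ (graph I.1 I.2.1).Adj u w ∨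
      (graph I.1 I.2.1).Adj v w := by
  have := free3_iff.1 hF u.1 (List.mem_toFinset.2 u.2) v.1 (List.mem_toFinset.2 v.2) w.1
    (List.mem_toFinset.2 w.2) (fun e => h1 (Subtype.ext e)) (fun e => h2 (Subtype.ext e))
    (fun e => h3 (Subtype.ext e))
  rw [graph_adj, graph_adj, graph_adj]
  exact this

/-- If at most `t` nonterminals separate the nonterminals, then the promise holds. -/
theorem near_of_cut {t : ℕ} (ht : 1 ≤ t) (hF : Free threeP1 (graph I.1 I.2.1))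
    {S X Y : Finset {v // v ∈ I.1}} (hS : S.card ≤ t) (hX : X.Nonempty) (hY : Y.Nonempty)
    (hU : ∀ v, v ∈ X ∪ Y ↔ v ∉ S ∧ ∀ Z ∈ I.2.2, v.1 ∉ Z)
    (hXY : ∀ x ∈ X, ∀ y ∈ Y, x ≠ y ∧ ¬ (graph I.1 I.2.1).Adj x y) : NearlySparse t I := by
  refine ⟨S, X ∪ Y, ∅, by simpa using hS, hU, ?_⟩
  -- both sides are cliques
  have key : ∀ X Y : Finset {v // v ∈ I.1}, Y.Nonempty →
      (∀ x ∈ X, ∀ y ∈ Y, x ≠ y ∧ ¬ (graph I.1 I.2.1).Adj x y) →
      ∀ x ∈ X, ∀ x' ∈ X, x ≠ x' → (graph I.1 I.2.1).Adj x x' := by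
    intro X Y hY h x hx x' hx' hne
    obtain ⟨y, hy⟩ := hY
    rcases tri hF x x' y hne (h x hx y hy).1 (h x' hx' y hy).1 with h1 | h1 | h1
    · exact h1
    · exact absurd h1 (h x hx y hy).2
    · exact absurd h1 (h x' hx' y hy).2
  have hYX : ∀ y ∈ Y, ∀ x ∈ X, y ≠ x ∧ ¬ (graph I.1 I.2.1).Adj y x := fun y hy x hx =>
    ⟨(hXY x hx y hy).1.symm, fun e => (hXY x hx y hy).2 e.symm⟩
  have cX := key X Y hY hXY
  have cY := key Y X hX hYX
  have nt : ∀ v ∈ X ∪ Y, ∀ Z ∈ I.2.2, v.1 ∉ Z := fun v hv => ((hU v).1 hv).2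
  -- no terminal set joined on one side splits a pair
  have main : ∀ (X Y : Finset {v // v ∈ I.1}), (∀ v ∈ X, ∀ Z ∈ I.2.2, v.1 ∉ Z) →
      (∀ v ∈ Y, ∀ Z ∈ I.2.2, v.1 ∉ Z) →
      (∀ x ∈ X, ∀ y ∈ Y, x ≠ y ∧ ¬ (graph I.1 I.2.1).Adj x y) → ∀ Z ∈ I.2.2, ∀ a ∈ X, ∀ b ∈ X,
      Opp I Z a b → ∀ y ∈ Y, ∀ x, ¬ Opp I Z x y := by
    intro X Y nX nY h Z hZ a ha b hb hab y hy x hxy
    obtain ⟨⟨p, hp, hap⟩, ⟨q, hq, hbq⟩, hpq⟩ := hab
    have npq := hpq p q hp hq hap hbq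
    have nbp : ¬ (graph I.1 I.2.1).Adj b p := fun e => (hpq p p hp hp hap e).1 rfl
    have naq : ¬ (graph I.1 I.2.1).Adj a q := fun e => (hpq q q hq hq e hbq).1 rfl
    have ne : ∀ (v z : {v // v ∈ I.1}), (∀ Z ∈ I.2.2, v.1 ∉ Z) → z.1 ∈ Z → v ≠ z :=
      fun v z hv hz he => hv Z hZ (he ▸ hz)
    have yp : (graph I.1 I.2.1).Adj y p := by
      rcases tri hF b y p (h b hb y hy).1 (ne b p (nX b hb) hp) (ne y p (nY y hy) hp) with
        h1 | h1 | h1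
      · exact absurd h1 (h b hb y hy).2
      · exact absurd h1 nbp
      · exact h1
    have yq : (graph I.1 I.2.1).Adj y q := by
      rcases tri hF a y q (h a ha y hy).1 (ne a q (nX a ha) hq) (ne y q (nY y hy) hq) with
        h1 | h1 | h1
      · exact absurd h1 (h a ha y hy).2
      · exact absurd h1 naq
      · exact h1
    obtain ⟨⟨r, hr, hxr⟩, _, hxy⟩ := hxy
    have h1 := hxy r p hr hp hxr yp
    have h2 := hxy r q hr hq hxr yq
    rcases tri hF r p q h1.1 h2.1 npq.1 with h3 | h3 | h3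
    · exact h1.2 h3
    · exact h2.2 h3
    · exact npq.2 h3
  have osymm : ∀ Z (a b : {v // v ∈ I.1}), Opp I Z a b → Opp I Z b a := by
    rintro Z a b ⟨h1, h2, h3⟩
    exact ⟨h2, h1, fun x y hx hy hbx hay =>
      ⟨(h3 y x hy hx hay hbx).1.symm, fun e => (h3 y x hy hx hay hbx).2 e.symm⟩⟩
  intro X' Y' hX' hY' hXc hYc
  obtain ⟨x, hx⟩ : X'.Nonempty := by rw [← card_pos]; omega
  obtain ⟨y, hy⟩ : Y'.Nonempty := by rw [← card_pos]; omega
  refine ⟨x, hx, y, hy, ?_⟩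
  rintro ⟨Z, hZ, _, _, ⟨a, ha, b, hb, hab, hadj⟩, hxy, hnadj⟩
  have hne : x ≠ y := by
    rintro rfl
    obtain ⟨⟨p, hp, h1⟩, _, h3⟩ := hxy
    exact (h3 p p hp hp h1 h1).1 rfl
  have nX : ∀ v ∈ X, ∀ Z ∈ I.2.2, v.1 ∉ Z := fun v hv => nt v (mem_union_left _ hv)
  have nY : ∀ v ∈ Y, ∀ Z ∈ I.2.2, v.1 ∉ Z := fun v hv => nt v (mem_union_right _ hv)
  -- the adjacent pair lies on one side
  have hside : (a ∈ X ∧ b ∈ X) ∨ (a ∈ Y ∧ b ∈ Y) := by
    rcases mem_union.1 ha with h1 | h1 <;> rcases mem_union.1 hb with h2 | h2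
    · exact Or.inl ⟨h1, h2⟩
    · exact absurd hadj (hXY a h1 b h2).2
    · exact absurd hadj (hYX a h1 b h2).2
    · exact Or.inr ⟨h1, h2⟩
  -- the split pair does not
  have hxy' : (x ∈ X ∧ y ∈ Y) ∨ (x ∈ Y ∧ y ∈ X) := by
    rcases mem_union.1 (hX' hx) with h1 | h1 <;> rcases mem_union.1 (hY' hy) with h2 | h2
    · exact absurd (cX x h1 y h2 hne) hnadj
    · exact Or.inl ⟨h1, h2⟩
    · exact Or.inr ⟨h1, h2⟩
    · exact absurd (cY x h1 y h2 hne) hnadj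
  rcases hside with ⟨h1, h2⟩ | ⟨h1, h2⟩ <;> rcases hxy' with ⟨h3, h4⟩ | ⟨h3, h4⟩
  · exact main X Y nX nY hXY Z hZ a h1 b h2 hab y h4 x hxy
  · exact main X Y nX nY hXY Z hZ a h1 b h2 hab x h3 y (osymm Z x y hxy)
  · exact main Y X nY nX hYX Z hZ a h1 b h2 hab x h3 y (osymm Z x y hxy)
  · exact main Y X nY nX hYX Z hZ a h1 b h2 hab y h4 x hxy

/-- The former promise implies the new one. -/
theorem near_of_sparse {t : ℕ} (h : ¬ SplitBiclique t I) : NearlySparse t I := by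
  refine ⟨∅, univ.filter fun v => ∀ Z ∈ I.2.2, v.1 ∉ Z, ∅, by simp, by simp, ?_⟩
  intro X Y hX hY hXc hYc
  by_contra hn
  push Not at hn
  refine h ⟨X, Y, hXc, hYc, fun x hx => (mem_filter.1 (hX hx)).2,
    fun y hy => (mem_filter.1 (hY hy)).2, fun x hx y hy => ?_⟩
  obtain ⟨Z, hZ, _, _, _, ⟨⟨p, hp, h1⟩, ⟨q, hq, h2⟩, h3⟩, h4⟩ := hn x hx y hy
  have h5 := h3 p q hp hq h1 h2
  exact ⟨Z, hZ, p, q, hp, hq, h1.symm, h2.symm, h5.2, fun e => (h3 p p hp hp h1 e.symm).1 rfl,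
    fun e => (h3 q q hq hq e h2).1 rfl, h4⟩

/-- A bounded number of terminal sets is a special case. -/
theorem near_of_few {t : ℕ} (ht : 1 ≤ t) (h : I.2.2.length ≤ t) : NearlySparse t I := by
  refine ⟨∅, univ.filter fun v => ∀ Z ∈ I.2.2, v.1 ∉ Z, I.2.2.toFinset, ?_, by simp, ?_⟩
  · have := List.toFinset_card_le I.2.2
    rw [card_empty]
    omega
  · intro X Y hX hY hXc hYc
    obtain ⟨x, hx⟩ : X.Nonempty := by rw [← card_pos]; omega
    obtain ⟨y, hy⟩ : Y.Nonempty := by rw [← card_pos]; omega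
    refine ⟨x, hx, y, hy, ?_⟩
    rintro ⟨Z, hZ, h1, _⟩
    exact h1 (List.mem_toFinset.2 hZ)

end Pool.Agent.Helper878_bg
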