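import Pool.Agent.Helper878_mm.Bridge

/-!
# The core algorithm with inactive terminal sets

A terminal set which is not in the list `fl` is inactive: it can only be connected by one vertex.
-/

set_option autoImplicit false
set_option linter.unusedSectionVars false

namespace Pool.Agent.Helper878_bg

open Finset Pool.Agent.NPC Pool.Agent.H671R2.SF Pool.Agent.Helper878_dcs Pool.Agent.Helper878_mm

/-- membership, as a program -/
def fB (fl : List (List ℕ)) (Z : List ℕ) : Bool := fl.any fun Y => decide (Y = Z)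

/-- `w` and `e` see different classes, for an active terminal set -/
def oppF (E : List (ℕ × ℕ)) (fl : List (List ℕ)) (Z : List ℕ) (w e : ℕ) : Bool :=
  fB fl Z && oppB E Z w e

/-- the edges of the unfolded graph -/
def okF (E : List (ℕ × ℕ)) (fl : List (List ℕ)) (n : ℕ) (Z : List ℕ) (w e a b : ℕ) : Bool :=
  (zB E Z w && decide (a + b + 1 = n)) || (oppF E fl Z w e && decide (a + b + 2 = n))

def lnkF (E : List (ℕ × ℕ)) (fl : List (List ℕ)) (W : List ℕ) (J : List (List ℕ)) (e : ℕ) :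
    List ((ℕ × ℕ) × (ℕ × ℕ)) :=
  (((qB E J e ×ˢ W) ×ˢ (lev W ×ˢ lev W)).filter fun p =>
    okF E fl (2 * W.length + 1) p.1.1 p.1.2 e p.2.1 p.2.2).map fun p =>
      ((nm p.1.1, p.2.1), (p.1.2, p.2.2))

/-- the test for the direction `e` -/
def tstF (E : List (ℕ × ℕ)) (fl : List (List ℕ)) (W : List ℕ) (J : List (List ℕ)) (e : ℕ) : Bool :=
  decide ((qB E J e).length * (2 * W.length + 1) + J.length ≤
    (maxM (nodB E W J e) (lnkF E fl W J e)).length + W.length)

def coreF (E : List (ℕ × ℕ)) (fl : List (List ℕ)) (W : List ℕ) (J : List (List ℕ)) : Bool :=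
  decide (J.length ≤ W.length) && W.all fun e => tstF E fl W J e

section
variable {γ : Type} [TEnc γ] {E : γ → List (ℕ × ℕ)} {W Z : γ → List ℕ} {fl J : γ → List (List ℕ)}
  {n u v a b : γ → ℕ}

@[fun_prop]
theorem poly_fB (hf : Poly fl) (hZ : Poly Z) : Poly (fun x => fB (fl x) (Z x)) := by
  unfold fB; fun_prop

@[fun_prop]
theorem poly_oppF (hE : Poly E) (hf : Poly fl) (hZ : Poly Z) (hu : Poly u) (hv : Poly v) :
    Poly (fun x => oppF (E x) (fl x) (Z x) (u x) (v x)) := by
  unfold oppF; fun_prop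

@[fun_prop]
theorem poly_okF (hE : Poly E) (hf : Poly fl) (hn : Poly n) (hZ : Poly Z) (hu : Poly u)
    (hv : Poly v) (ha : Poly a) (hb : Poly b) :
    Poly (fun x => okF (E x) (fl x) (n x) (Z x) (u x) (v x) (a x) (b x)) := by
  unfold okF; fun_prop

@[fun_prop]
theorem poly_lnkF (hE : Poly E) (hf : Poly fl) (hW : Poly W) (hJ : Poly J) (hu : Poly u) :
    Poly (fun x => lnkF (E x) (fl x) (W x) (J x) (u x)) := by
  unfold lnkF; fun_prop

@[fun_prop]
theorem poly_tstF (hE : Poly E) (hf : Poly fl) (hW : Poly W) (hJ : Poly J) (hu : Poly u) :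
    Poly (fun x => tstF (E x) (fl x) (W x) (J x) (u x)) := by
  unfold tstF; fun_prop

@[fun_prop]
theorem poly_coreF (hE : Poly E) (hf : Poly fl) (hW : Poly W) (hJ : Poly J) :
    Poly (fun x => coreF (E x) (fl x) (W x) (J x)) := by
  unfold coreF; fun_prop

end

variable {E : List (ℕ × ℕ)} {fl : List (List ℕ)} {W : List ℕ} {J : List (List ℕ)}

theorem fB_iff {Z : List ℕ} : fB fl Z = true ↔ Z ∈ fl := by
  unfold fB
  simp

/-- the type of a nonterminal with respect to a terminal set -/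
def f3 (E : List (ℕ × ℕ)) (fl : List (List ℕ)) (Z : List ℕ) (w : ℕ) : Fin 3 :=
  if fB fl Z = true then sg3 E Z w else if zB E Z w = true then 0 else 1

theorem f3_zero {Z : List ℕ} {w : ℕ} : f3 E fl Z w = 0 ↔ zB E Z w = true := by
  unfold f3
  by_cases h : fB fl Z = true
  · rw [if_pos h]; exact sg3_zero
  · rw [if_neg h]
    by_cases h' : zB E Z w = true
    · rw [if_pos h']; exact ⟨fun _ => h', fun _ => rfl⟩
    · rw [if_neg h']
      exact ⟨fun h0 => absurd h0 (by decide), fun h0 => absurd h0 h'⟩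

theorem f3_on {Z : List ℕ} {w : ℕ} (h : fB fl Z = true) : f3 E fl Z w = sg3 E Z w := by
  unfold f3
  rw [if_pos h]

theorem f3_off {Z : List ℕ} {w : ℕ} (h : ¬ fB fl Z = true) (h0 : f3 E fl Z w ≠ 0) :
    f3 E fl Z w = 1 := by
  unfold f3 at h0 ⊢
  rw [if_neg h] at h0 ⊢
  by_cases h' : zB E Z w = true
  · rw [if_pos h'] at h0; exact absurd rfl h0
  · rw [if_neg h']

theorem f3_two {Z : List ℕ} {w : ℕ} (h : f3 E fl Z w = 2) : fB fl Z = true := by
  by_contra hn
  have := f3_off hn (by rw [h]; decide)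
  rw [h] at this
  exact absurd this (by decide)

theorem oppF_iff {Z : List ℕ} {w e : ℕ} (he : f3 E fl Z e ≠ 0) :
    oppF E fl Z w e = true ↔ f3 E fl Z w ≠ 0 ∧ f3 E fl Z w ≠ f3 E fl Z e := by
  unfold oppF
  by_cases h : fB fl Z = true
  · rw [f3_on h] at he ⊢
    rw [f3_on h, h, Bool.true_and]
    exact opp_iff he
  · constructor
    · intro h1
      rw [Bool.and_eq_true] at h1
      exact absurd h1.1 h
    · rintro ⟨h1, h2⟩
      exact absurd ((f3_off h h1).trans (f3_off h he).symm) h2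

/-- the types of the indices -/
def sgF (E : List (ℕ × ℕ)) (fl J : List (List ℕ)) (i : {Z // Z ∈ J}) (w : ℕ) : Fin 3 :=
  f3 E fl i.1 w

theorem tstF_spec (h : LC W J) (e : ℕ) :
    Tst W.toFinset (sgF E fl J) (fun i => nm i.1) (2 * W.toFinset.card + 1) e (nodB E W J e)
      (lnkF E fl W J e) := by
  have hq : ∀ Z, Z ∈ qB E J e ↔ Z ∈ J ∧ f3 E fl Z e ≠ 0 := by
    intro Z
    unfold qB
    rw [List.mem_filter, Ne, f3_zero, Bool.not_eq_true, Bool.not_eq_true']
  have hc : W.toFinset.card = W.length := List.toFinset_card_of_nodup h.hWn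
  rw [hc]
  refine ⟨?_, ?_, ?_, ?_, ?_⟩
  · unfold nodB
    refine List.Nodup.product ?_ nodup_lev
    rw [List.nodup_append]
    refine ⟨?_, h.hWn, ?_⟩
    · refine List.Nodup.map_on ?_ (h.hJn.filter _)
      intro Z hZ Z' hZ' he
      exact h.nm_inj ((hq Z).1 hZ).1 ((hq Z').1 hZ').1 he
    · intro a ha b hb hab
      obtain ⟨Z, hZ, rfl⟩ := List.mem_map.1 ha
      have hZJ := ((hq Z).1 hZ).1
      exact h.hJW Z hZJ _ (nm_mem (h.hne Z hZJ)) (hab ▸ hb)
  · rintro ⟨v, a⟩
    unfold nodB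
    rw [List.mem_product, mem_lev, List.mem_append, List.mem_map, List.mem_toFinset, and_comm]
    refine and_congr_right fun _ => or_congr_left ?_
    constructor
    · rintro ⟨Z, hZ, rfl⟩
      exact ⟨⟨Z, ((hq Z).1 hZ).1⟩, ((hq Z).1 hZ).2, rfl⟩
    · rintro ⟨i, hi, hv⟩
      exact ⟨i.1, (hq i.1).2 ⟨i.2, hi⟩, hv.symm⟩
  · rintro ⟨x, a⟩ ⟨y, b⟩
    unfold lnkF
    rw [List.mem_map]
    constructor
    · rintro ⟨⟨⟨Z, w⟩, ⟨a', b'⟩⟩, hm, he⟩
      rw [List.mem_filter, List.mem_product, List.mem_product, List.mem_product, mem_lev,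
        mem_lev] at hm
      obtain ⟨⟨⟨hZ, hw⟩, ha, hb⟩, hok⟩ := hm
      dsimp only at hZ hw ha hb hok he
      have h1 := (Prod.mk.inj he).1
      have h2 := (Prod.mk.inj he).2
      obtain ⟨rfl, rfl⟩ := Prod.mk.inj h1
      obtain ⟨rfl, rfl⟩ := Prod.mk.inj h2
      refine ⟨⟨Z, ((hq Z).1 hZ).1⟩, ((hq Z).1 hZ).2, rfl, List.mem_toFinset.2 hw, ha, hb, ?_⟩
      unfold okF at hok
      rw [Bool.or_eq_true, Bool.and_eq_true, Bool.and_eq_true, decide_eq_true_eq,
        decide_eq_true_eq, oppF_iff ((hq Z).1 hZ).2, and_assoc] at hok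
      rcases hok with ⟨h3, h4⟩ | ⟨h3, h4, h5⟩
      · exact Or.inl ⟨f3_zero.2 h3, h4⟩
      · exact Or.inr ⟨h3, h4, h5⟩
    · rintro ⟨i, hi, h1, h2, h3, h4, h5⟩
      dsimp only at h1 h2 h3 h4 h5
      rw [List.mem_toFinset] at h2
      refine ⟨((i.1, y), (a, b)), ?_, ?_⟩
      · rw [List.mem_filter, List.mem_product, List.mem_product, List.mem_product, mem_lev,
          mem_lev]
        refine ⟨⟨⟨(hq i.1).2 ⟨i.2, hi⟩, h2⟩, h3, h4⟩, ?_⟩
        unfold okF
        dsimp only
        rw [Bool.or_eq_true, Bool.and_eq_true, Bool.and_eq_true, decide_eq_true_eq,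
          decide_eq_true_eq, oppF_iff hi, and_assoc]
        rcases h5 with ⟨h5, h6⟩ | ⟨h5, h6, h7⟩
        · exact Or.inl ⟨f3_zero.1 h5, h6⟩
        · exact Or.inr ⟨h5, h6, h7⟩
      · dsimp only
        rw [h1]
  · intro i j hij
    exact Subtype.ext (h.nm_inj i.2 j.2 hij)
  · intro i hi
    rw [List.mem_toFinset] at hi
    exact h.hJW i.1 i.2 _ (nm_mem (h.hne i.1 i.2)) hi

theorem card_qF (hJn : J.Nodup) (e : ℕ) :
    ((univ : Finset {Z // Z ∈ J}).filter fun i => sgF E fl J i e ≠ 0).card = (qB E J e).length := by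
  rw [← List.toFinset_card_of_nodup (show (qB E J e).Nodup from hJn.filter _),
    ← card_map (Function.Embedding.subtype _)]
  congr 1
  ext Z
  rw [mem_map, List.mem_toFinset]
  unfold qB
  rw [List.mem_filter]
  constructor
  · rintro ⟨i, hi, rfl⟩
    rw [mem_filter] at hi
    refine ⟨i.2, ?_⟩
    have h2 := hi.2
    unfold sgF at h2
    rw [Ne, f3_zero, Bool.not_eq_true] at h2
    rw [Bool.not_eq_true']
    exact h2
  · rintro ⟨hZ, h2⟩
    refine ⟨⟨Z, hZ⟩, ?_, rfl⟩
    rw [mem_filter]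
    refine ⟨mem_univ _, ?_⟩
    unfold sgF
    rw [Ne, f3_zero, Bool.not_eq_true]
    rw [Bool.not_eq_true'] at h2
    exact h2

/-- The algorithm decides whether there are pairwise disjoint options. -/
theorem coreF_iff (h : LC W J) : coreF E fl W J = true ↔
    ∃ o : {Z // Z ∈ J} → Finset ℕ, (∀ i, IsOpt W.toFinset (sgF E fl J) i (o i)) ∧
      ∀ i j, i ≠ j → Disjoint (o i) (o j) := by
  have hc : W.toFinset.card = W.length := List.toFinset_card_of_nodup h.hWn
  unfold coreF
  rw [Bool.and_eq_true, decide_eq_true_eq, List.all_eq_true]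
  have ht : ∀ e, tstF E fl W J e = true ↔
      ((univ : Finset {Z // Z ∈ J}).filter fun i => sgF E fl J i e ≠ 0).card *
        (2 * W.toFinset.card + 1) + Fintype.card {Z // Z ∈ J} ≤
          (maxM (nodB E W J e) (lnkF E fl W J e)).length + W.toFinset.card := by
    intro e
    unfold tstF
    rw [decide_eq_true_eq, card_qF h.hJn, card_J h.hJn, hc]
  constructor
  · rintro ⟨h1, h2⟩
    by_cases hW : W.toFinset.Nonempty
    · refine min_max' hW ?_
      refine bound_of_test (nm := fun i : {Z // Z ∈ J} => nm i.1) ?_ ?_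
      · rw [card_J h.hJn, hc]; exact h1
      · intro e he
        exact ⟨_, _, tstF_spec h e, (ht e).1 (h2 e (List.mem_toFinset.1 he))⟩
    · rw [not_nonempty_iff_eq_empty] at hW
      have hJ0 : J.length = 0 := by
        rw [hW, card_empty] at hc
        omega
      have hJ : J = [] := List.eq_nil_of_length_eq_zero hJ0
      subst hJ
      exact ⟨fun _ => ∅, fun i => absurd i.2 (by simp), fun i => absurd i.2 (by simp)⟩
  · rintro ⟨o, ho, hd⟩
    refine ⟨?_, fun e he => (ht e).2 (test_of_sol (tstF_spec h e) (by omega) ho hd)⟩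
    rw [← card_J h.hJn, ← hc]
    have hoW : ∀ i, o i ⊆ W.toFinset := by
      intro i
      rcases ho i with ⟨c, hc, _, h2⟩ | ⟨a, ha, b, hb, _, _, h2⟩
      · rw [h2]; exact singleton_subset_iff.2 hc
      · rw [h2]; exact insert_subset ha (singleton_subset_iff.2 hb)
    have e5 : ∑ i, (o i).card ≤ W.toFinset.card := by
      rw [← card_biUnion (fun i _ j _ hij => hd i j hij)]
      refine card_le_card ?_
      intro x hx
      obtain ⟨i, _, hx⟩ := mem_biUnion.1 hx
      exact hoW i hx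
    refine le_trans ?_ e5
    rw [← card_univ, card_eq_sum_ones]
    refine sum_le_sum fun i _ => ?_
    rw [Nat.succ_le_iff, card_pos]
    rcases ho i with ⟨c, _, _, h2⟩ | ⟨a, _, b, _, _, _, h2⟩
    · rw [h2]; exact singleton_nonempty c
    · rw [h2]; exact insert_nonempty a _

end Pool.Agent.Helper878_bg
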