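import Pool.Agent.Helper878_mm.Defs

/-!
# Split pairs of joined terminal sets: definitions
-/

set_option autoImplicit false

namespace Pool.Agent.Helper878_bg

open Pool.Agent.Helper878_dcs

/-- The terminal set `Z` induces a disconnected subgraph. -/
def Disc (I : Inst) (Z : List ℕ) : Prop :=
  ¬ ((graph I.1 I.2.1).induce (vset I.1 Z)).Connected

/-- The vertices `a` and `b` see different parts of the terminal set `Z`: both have a neighbour in
`Z`, and no neighbour of `a` in `Z` is equal or adjacent to a neighbour of `b` in `Z`. -/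
def Opp (I : Inst) (Z : List ℕ) (a b : {v // v ∈ I.1}) : Prop :=
  (∃ x : {v // v ∈ I.1}, x.1 ∈ Z ∧ (graph I.1 I.2.1).Adj a x) ∧
  (∃ y : {v // v ∈ I.1}, y.1 ∈ Z ∧ (graph I.1 I.2.1).Adj b y) ∧
  ∀ x y : {v // v ∈ I.1}, x.1 ∈ Z → y.1 ∈ Z → (graph I.1 I.2.1).Adj a x →
    (graph I.1 I.2.1).Adj b y → x ≠ y ∧ ¬ (graph I.1 I.2.1).Adj x y

/-- The terminal set `Z` is joined by `U`: two adjacent vertices of `U` see different parts of
`Z`. -/
def Joined (I : Inst) (U : Finset {v // v ∈ I.1}) (Z : List ℕ) : Prop :=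
  ∃ a ∈ U, ∃ b ∈ U, Opp I Z a b ∧ (graph I.1 I.2.1).Adj a b

/-- The pair `a, b` is split: `a` and `b` are nonadjacent, and they see different parts of some
disconnected terminal set which is not in `T` and which is joined by `U`. -/
def SplitIn (I : Inst) (T : Finset (List ℕ)) (U : Finset {v // v ∈ I.1})
    (a b : {v // v ∈ I.1}) : Prop :=
  ∃ Z ∈ I.2.2, Z ∉ T ∧ Disc I Z ∧ Joined I U Z ∧ Opp I Z a b ∧ ¬ (graph I.1 I.2.1).Adj a b

/-- The split pairs in `U` contain no `t` times `t` biclique: of any two sets of `t` vertices of `U`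
some vertex of the first and some vertex of the second are not a split pair. -/
def Sparse (t : ℕ) (I : Inst) (T : Finset (List ℕ)) (U : Finset {v // v ∈ I.1}) : Prop :=
  ∀ X Y : Finset {v // v ∈ I.1}, X ⊆ U → Y ⊆ U → X.card = t → Y.card = t →
    ∃ x ∈ X, ∃ y ∈ Y, ¬ SplitIn I T U x y

/-- There are a set `S` of vertices and a set `T` of terminal sets, at most `t` elements in all,
such that after deleting `S` and ignoring `T` the split pairs in the set `U` of the remaining
nonterminals contain no `t` times `t` biclique. -/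
def NearlySparse (t : ℕ) (I : Inst) : Prop :=
  ∃ (S U : Finset {v // v ∈ I.1}) (T : Finset (List ℕ)), S.card + T.card ≤ t ∧
    (∀ v, v ∈ U ↔ v ∉ S ∧ ∀ Z ∈ I.2.2, v.1 ∉ Z) ∧ Sparse t I T U

end Pool.Agent.Helper878_bg
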