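import Pool.Agent.Helper878_bg.Top
import Pool.Agent.Helper878_bg.Defs

/-!
# The whole algorithm
-/

set_option autoImplicit false
set_option linter.unusedSectionVars false

namespace Pool.Agent.Helper878_bg

open Finset Pool.Agent.NPC Pool.Agent.H671R2.SF Pool.Agent.Helper878_dcs Pool.Agent.Helper878_mm
open Pool.Agent.Helper878_bs
open scoped Classical

variable {I : Inst}

theorem opp_op (hw : WellFormed I) {Z : List ℕ} (hZ : Z ∈ I.2.2) (a b : {v // v ∈ I.1}) :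
    Opp I Z a b ↔ Op I.2.1 Z a.1 b.1 := by
  have hV : ∀ z ∈ Z, z ∈ I.1 := (hw.2.2 Z hZ).2
  unfold Opp Op
  refine and_congr ?_ (and_congr ?_ ?_)
  · constructor
    · rintro ⟨x, hx, h⟩
      exact ⟨x.1, hx, graph_adj.1 h⟩
    · rintro ⟨x, hx, h⟩
      exact ⟨⟨x, hV x hx⟩, hx, graph_adj.2 h⟩
  · constructor
    · rintro ⟨x, hx, h⟩
      exact ⟨x.1, hx, graph_adj.1 h⟩
    · rintro ⟨x, hx, h⟩
      exact ⟨⟨x, hV x hx⟩, hx, graph_adj.2 h⟩
  · constructor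
    · intro h x hx y hy h1 h2
      have := h ⟨x, hV x hx⟩ ⟨y, hV y hy⟩ hx hy (graph_adj.2 h1) (graph_adj.2 h2)
      exact ⟨fun he => this.1 (Subtype.ext he), fun he => this.2 (graph_adj.2 he)⟩
    · intro h x y hx hy h1 h2
      have := h x.1 hx y.1 hy (graph_adj.1 h1) (graph_adj.1 h2)
      exact ⟨fun he => this.1 (congrArg Subtype.val he), fun he => this.2 (graph_adj.1 he)⟩

theorem mem_discs (hw : WellFormed I) (hT : TP (GG I.2.1) I.1.toFinset) {Z : List ℕ} :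
    Z ∈ discs I.2.1 I.2.2 ↔ Z ∈ I.2.2 ∧ Disc I Z := by
  unfold discs
  rw [List.mem_filter]
  refine and_congr_right fun hZ => ?_
  rw [disc_iff' hw hT.kp hZ]
  rfl

theorem splitIn_iff (hw : WellFormed I) (hT : TP (GG I.2.1) I.1.toFinset)
    {T : Finset (List ℕ)} {U : Finset {v // v ∈ I.1}} {U' : Finset ℕ}
    (hU : ∀ v : {v // v ∈ I.1}, v ∈ U ↔ v.1 ∈ U') (hV : ∀ v ∈ U', v ∈ I.1)
    (a b : {v // v ∈ I.1}) :
    SplitIn I T U a b ↔ SpU I.2.1 U' (mns (discs I.2.1 I.2.2) T) a.1 b.1 := by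
  have hJ : ∀ Z ∈ I.2.2, (Joined I U Z ↔ Jn I.2.1 U' Z) := by
    intro Z hZ
    unfold Joined Jn
    constructor
    · rintro ⟨a, ha, b, hb, h1, h2⟩
      exact ⟨a.1, (hU a).1 ha, b.1, (hU b).1 hb, (opp_op hw hZ a b).1 h1, graph_adj.1 h2⟩
    · rintro ⟨a, ha, b, hb, h1, h2⟩
      exact ⟨⟨a, hV a ha⟩, (hU _).2 ha, ⟨b, hV b hb⟩, (hU _).2 hb,
        (opp_op hw hZ _ _).2 h1, graph_adj.2 h2⟩
  unfold SplitIn SpU
  constructor
  · rintro ⟨Z, hZ, h0, h1, h2, h3, h4⟩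
    exact ⟨Z, mem_mns.2 ⟨(mem_discs hw hT).2 ⟨hZ, h1⟩, h0⟩, (hJ Z hZ).1 h2,
      (opp_op hw hZ a b).1 h3, fun he => h4 (graph_adj.2 he)⟩
  · rintro ⟨Z, hZ, h2, h3, h4⟩
    obtain ⟨hZ1, h0⟩ := mem_mns.1 hZ
    obtain ⟨hZ', h1⟩ := (mem_discs hw hT).1 hZ1
    exact ⟨Z, hZ', h0, h1, (hJ Z hZ').2 h2, (opp_op hw hZ' a b).2 h3,
      fun he => h4 (graph_adj.1 he)⟩

theorem sparse_iff (hw : WellFormed I) (hT : TP (GG I.2.1) I.1.toFinset) (t : ℕ)
    {T : Finset (List ℕ)} {U : Finset {v // v ∈ I.1}} {U' : Finset ℕ}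
    (hU : ∀ v : {v // v ∈ I.1}, v ∈ U ↔ v.1 ∈ U') (hV : ∀ v ∈ U', v ∈ I.1) :
    Sparse t I T U ↔ KF U' (SpU I.2.1 U' (mns (discs I.2.1 I.2.2) T)) t := by
  unfold Sparse KF
  constructor
  · intro h X Y hX hY hXc hYc
    obtain ⟨X', h1, h2⟩ := exists_lift fun x hx => hV x (hX hx)
    obtain ⟨Y', h3, h4⟩ := exists_lift fun y hy => hV y (hY hy)
    obtain ⟨x, hx, y, hy, hxy⟩ := h X' Y' (fun x hx => (hU x).2 (hX ((h2 x).1 hx)))
      (fun y hy => (hU y).2 (hY ((h4 y).1 hy))) (h1.trans hXc) (h3.trans hYc)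
    exact ⟨x.1, (h2 x).1 hx, y.1, (h4 y).1 hy, fun he =>
      hxy ((splitIn_iff hw hT hU hV x y).2 he)⟩
  · intro h X Y hX hY hXc hYc
    obtain ⟨x, hx, y, hy, hxy⟩ := h (X.map ⟨Subtype.val, Subtype.val_injective⟩)
      (Y.map ⟨Subtype.val, Subtype.val_injective⟩) (by
        intro x hx
        obtain ⟨x', hx', rfl⟩ := mem_map.1 hx
        exact (hU x').1 (hX hx')) (by
        intro y hy
        obtain ⟨y', hy', rfl⟩ := mem_map.1 hy
        exact (hU y').1 (hY hy'))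
      (by rw [card_map, hXc]) (by rw [card_map, hYc])
    obtain ⟨x', hx', rfl⟩ := mem_map.1 hx
    obtain ⟨y', hy', rfl⟩ := mem_map.1 hy
    exact ⟨x', hx', y', hy', fun he => hxy ((splitIn_iff hw hT hU hV x' y').1 he)⟩

theorem near_iff (hw : WellFormed I) (hT : TP (GG I.2.1) I.1.toFinset) (t : ℕ) :
    NearlySparse t I ↔
      nearB t t (I.2.1, (freeV I.1 I.2.2, discs I.2.1 I.2.2)) = true := by
  rw [near_iff' t _ _ (lctx hw hT.kp).hWn]
  unfold NearlySparse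
  constructor
  · rintro ⟨S, U, T, hS, hU, h⟩
    refine ⟨(S.map ⟨Subtype.val, Subtype.val_injective⟩) ∩ (freeV I.1 I.2.2).toFinset,
      inter_subset_right, T ∩ (discs I.2.1 I.2.2).toFinset, fun Z hZ =>
      List.mem_toFinset.1 (mem_inter.1 hZ).2, ?_, ?_⟩
    · have h1 := card_le_card (inter_subset_left
        (s₁ := S.map ⟨Subtype.val, Subtype.val_injective⟩) (s₂ := (freeV I.1 I.2.2).toFinset))
      have h2 := card_le_card (inter_subset_left (s₁ := T)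
        (s₂ := (discs I.2.1 I.2.2).toFinset))
      rw [card_map] at h1
      omega
    refine KF_mono (Subset.refl _) (J := mns (discs I.2.1 I.2.2) T) (fun Z hZ => ?_)
      ((sparse_iff hw hT t (fun v => ?_) (fun v hv => ?_)).1 h)
    · rw [mem_mns, mem_inter] at hZ
      exact mem_mns.2 ⟨hZ.1, fun hZT => hZ.2 ⟨hZT, List.mem_toFinset.2 hZ.1⟩⟩
    · rw [hU, mem_sdiff, mem_inter, List.mem_toFinset, mem_freeV, mem_map]
      constructor
      · rintro ⟨h1, h2⟩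
        refine ⟨⟨v.2, h2⟩, fun h3 => h1 ?_⟩
        obtain ⟨s, hs, he⟩ := h3.1
        rw [← Subtype.ext (show s.1 = v.1 from he)]
        exact hs
      · rintro ⟨h1, h2⟩
        exact ⟨fun h3 => h2 ⟨⟨v, h3, rfl⟩, h1⟩, h1.2⟩
    · exact (mem_freeV.1 (List.mem_toFinset.1 (mem_sdiff.1 hv).1)).1
  · rintro ⟨S, hS, T, _, hc, hk⟩
    have hSV : ∀ s ∈ S, s ∈ I.1 := fun s hs => (mem_freeV.1 (List.mem_toFinset.1 (hS hs))).1
    have hUV : ∀ s ∈ (freeV I.1 I.2.2).toFinset \ S, s ∈ I.1 := fun s hs =>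
      (mem_freeV.1 (List.mem_toFinset.1 (mem_sdiff.1 hs).1)).1
    obtain ⟨S', h1, h2⟩ := exists_lift hSV
    obtain ⟨U', h3, h4⟩ := exists_lift hUV
    refine ⟨S', U', T, by omega, fun v => ?_, (sparse_iff hw hT t h4 hUV).2 hk⟩
    rw [h4, h2, mem_sdiff, List.mem_toFinset, mem_freeV]
    constructor
    · rintro ⟨h5, h6⟩
      exact ⟨h6, h5.2⟩
    · rintro ⟨h5, h6⟩
      exact ⟨⟨v.2, h6⟩, h5⟩

/-- the algorithm -/
def solveG (t : ℕ) (I : Inst) : Bool :=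
  wfB I && tpB I.1 I.2.1 && nearB t t (I.2.1, (freeV I.1 I.2.2, discs I.2.1 I.2.2)) &&
    topB t t (I.2.1, (freeV I.1 I.2.2, discs I.2.1 I.2.2))

theorem poly_solveG (t : ℕ) : Poly (solveG t) := by
  have h1 := poly_nearB t t
  have h2 := poly_topB t t
  unfold solveG wfB tpB nodupB
  generalize nearB t t = f at h1
  generalize topB t t = g at h2
  fun_prop

theorem solveG_iff (t : ℕ) (I : Inst) : (WellFormed I ∧ Free threeP1 (graph I.1 I.2.1) ∧
    NearlySparse t I ∧ DCS I) ↔ solveG t I = true := by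
  unfold solveG
  rw [Bool.and_eq_true, Bool.and_eq_true, Bool.and_eq_true, wfB_iff, tpB_iff, free3_iff,
    and_assoc, and_assoc]
  refine and_congr_right fun hw => and_congr_right fun hT => ?_
  rw [← near_iff hw hT]
  refine and_congr_right fun hN => ?_
  have htc : TC I.2.1 (discs I.2.1 I.2.2) I.1.toFinset (freeV I.1 I.2.2) (discs I.2.1 I.2.2) :=
    ⟨lctx hw hT.kp, hT, fun Z hZ => hZ⟩
  rw [dcs_iff hw hT.kp, feas_good htc]
  constructor
  · intro h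
    rw [near_iff hw hT, near_iff' t _ _ (lctx hw hT.kp).hWn] at hN
    obtain ⟨S, hS, T, hT', hc, hk⟩ := hN
    exact top_complete t S T _ _ htc hS hT' hc hk h
  · exact top_sound t _ _ htc

theorem mainG (t : ℕ) : InPP (fun I : Inst => WellFormed I ∧ Free threeP1 (graph I.1 I.2.1) ∧
    NearlySparse t I ∧ DCS I) :=
  inPP_of (poly_solveG t) fun I => solveG_iff t I

end Pool.Agent.Helper878_bg
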