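import Pool.Agent.Helper878_bg.CompF
import Pool.Agent.Helper878_bs.Bic

/-!
# The search decides feasibility
-/

set_option autoImplicit false
set_option linter.unusedSectionVars false

namespace Pool.Agent.Helper878_bg

open Finset Pool.Agent.NPC Pool.Agent.H671R2.SF Pool.Agent.Helper878_dcs Pool.Agent.Helper878_mm
open Pool.Agent.Helper878_bs
open scoped Classical

variable {E : List (ℕ × ℕ)} {Zs : List (List ℕ)} {U : Finset ℕ} {W : List ℕ} {J : List (List ℕ)}

/-- `a` and `b` see different parts of `Z` -/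
def Op (E : List (ℕ × ℕ)) (Z : List ℕ) (a b : ℕ) : Prop :=
  (∃ x ∈ Z, (GG E).Adj a x) ∧ (∃ y ∈ Z, (GG E).Adj b y) ∧
    ∀ x ∈ Z, ∀ y ∈ Z, (GG E).Adj a x → (GG E).Adj b y → x ≠ y ∧ ¬ (GG E).Adj x y

theorem opB_iff {Z : List ℕ} {a b : ℕ} : opB E Z a b = true ↔ Op E Z a b := by
  unfold opB Op
  rw [Bool.and_eq_true, Bool.and_eq_true, List.any_eq_true, List.any_eq_true, List.all_eq_true]
  have n : ∀ u v, adj E u v = false ↔ ¬ (GG E).Adj u v := fun u v => by
    rw [← Bool.not_eq_true']; exact nadj_iff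
  simp only [adj_iff, List.all_eq_true, Bool.or_eq_true, Bool.and_eq_true, Bool.not_eq_true',
    decide_eq_false_iff_not, n]
  refine and_congr_right fun _ => and_congr_right fun _ => forall_congr' fun x =>
    forall_congr' fun _ => forall_congr' fun y => forall_congr' fun _ => ?_
  tauto

/-- an adjacent pair of `U` connects `Z` -/
def Jn (E : List (ℕ × ℕ)) (U : Finset ℕ) (Z : List ℕ) : Prop :=
  ∃ a ∈ U, ∃ b ∈ U, Op E Z a b ∧ (GG E).Adj a b

theorem jnB_iff {Z : List ℕ} : jnB E W Z = true ↔ Jn E W.toFinset Z := by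
  unfold jnB Jn
  simp only [List.any_eq_true, Bool.and_eq_true, opB_iff, adj_iff, List.mem_toFinset]

/-- a split pair of an active terminal set -/
def SpU (E : List (ℕ × ℕ)) (U : Finset ℕ) (J : List (List ℕ)) (a b : ℕ) : Prop :=
  ∃ Z ∈ J, Jn E U Z ∧ Op E Z a b ∧ ¬ (GG E).Adj a b

theorem spF_iff {a b : ℕ} : SpF E (flg E W J) a b ↔ SpU E W.toFinset J a b := by
  unfold SpF spF SpU flg
  simp only [List.any_eq_true, Bool.and_eq_true, opB_iff, nadj_iff, List.mem_filter, jnB_iff,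
    and_assoc]

theorem Op.symm {Z : List ℕ} {a b : ℕ} (h : Op E Z a b) : Op E Z b a :=
  ⟨h.2.1, h.1, fun x hx y hy hbx hay =>
    ⟨(h.2.2 y hy x hx hay hbx).1.symm, fun e => (h.2.2 y hy x hx hay hbx).2 e.symm⟩⟩

theorem SpU.symm {a b : ℕ} (h : SpU E U J a b) : SpU E U J b a := by
  obtain ⟨Z, hZ, h1, h2, h3⟩ := h
  exact ⟨Z, hZ, h1, h2.symm, fun e => h3 e.symm⟩

theorem op_of_labels (h : TC E Zs U W J) {Z : List ℕ} (hZ : Z ∈ J) {a b : ℕ} (ha : a ∈ W)
    (hb : b ∈ W) (h1 : sg3 E Z a = 1) (h2 : sg3 E Z b = 2) : Op E Z a b := by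
  have hK := h.lc.hK
  have hU := h.lc.hJU Z hZ
  have hne := h.ne' hZ
  have hd := h.lc.hdc Z hZ
  have h0 := h.nmm hZ
  obtain ⟨z1, hz1, hn1, ha2, hbm, e3, e4, e1, e2⟩ := h.sides hZ ha hb h1 h2
  refine ⟨⟨nm Z, List.mem_toFinset.1 h0, e3⟩, ⟨z1, List.mem_toFinset.1 hz1, e4⟩, ?_⟩
  intro x hx y hy hax hby
  rw [← List.mem_toFinset] at hx hy
  have hnx : near (GG E) Z.toFinset (nm Z) x := by
    by_contra hn
    have ht : s2B E Z a = true := (t2_iff h hZ).2 ⟨x, hx, hn, fun hm => miss_self hx hm hax⟩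
    have hs : s1B E Z a = true := (t1_iff h hZ).2 ha2
    have hz := (sg3_one.1 h1).1
    unfold zB at hz
    rw [hs, ht] at hz
    exact absurd hz (by decide)
  have hny : ¬ near (GG E) Z.toFinset (nm Z) y := fun hn => hbm y hy hn hby
  refine ⟨fun he => hny (he ▸ hnx), fun he => hny ?_⟩
  exact near_trans hK hU hne hd h0 hx hy hnx (near_of_adj he)

theorem mem_flg {Z : List ℕ} : Z ∈ flg E W J ↔ Z ∈ J ∧ Jn E W.toFinset Z := by
  unfold flg
  rw [List.mem_filter, jnB_iff]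

theorem ctxF (h : TC E J U W J) :
    Pool.Agent.Helper878_bs.Ctx W.toFinset (sgF E (flg E W J) J) (GG E).Adj
      (SpF E (flg E W J)) where
  sym := fun a b hab => spF_iff.2 (spF_iff.1 hab).symm
  adj := by
    intro i a ha b hb h1 h2 hn
    by_contra hab
    have hf := f3_two h2
    have h1' : sg3 E i.1 a = 1 := (f3_on hf).symm.trans h1
    have h2' : sg3 E i.1 b = 2 := (f3_on hf).symm.trans h2
    refine hn (spF_iff.2 ⟨i.1, i.2, (mem_flg.1 (fB_iff.1 hf)).2, ?_, hab⟩)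
    exact op_of_labels h i.2 (List.mem_toFinset.1 ha) (List.mem_toFinset.1 hb) h1' h2'

theorem good_iff (h : TC E J U W J) (i : {Z // Z ∈ J}) (s : Finset ℕ) :
    Gd E W J i s ↔ GdF E (flg E W J) W J i s := by
  constructor
  · rintro (⟨c, hc, h1, h2⟩ | ⟨a, ha, b, hb, h1, h2, h3, h4⟩)
    · exact Or.inl ⟨c, hc, f3_zero.2 (sg3_zero.1 h1), h2⟩
    · have hop := op_of_labels h i.2 (List.mem_toFinset.1 ha) (List.mem_toFinset.1 hb) h1 h2
      have hf : fB (flg E W J) i.1 = true :=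
        fB_iff.2 (mem_flg.2 ⟨i.2, a, ha, b, hb, hop, h3⟩)
      exact Or.inr ⟨a, ha, b, hb, (f3_on hf).trans h1, (f3_on hf).trans h2, h3, h4⟩
  · rintro (⟨c, hc, h1, h2⟩ | ⟨a, ha, b, hb, h1, h2, h3, h4⟩)
    · exact Or.inl ⟨c, hc, sg3_zero.2 (f3_zero.1 h1), h2⟩
    · have hf := f3_two h2
      exact Or.inr ⟨a, ha, b, hb, (f3_on hf).symm.trans h1, (f3_on hf).symm.trans h2, h3, h4⟩

/-- there is a family of pairwise disjoint good options -/
def Sol (E : List (ℕ × ℕ)) (W : List ℕ) (J : List (List ℕ)) : Prop :=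
  ∃ g : {Z // Z ∈ J} → Finset ℕ, (∀ i, Gd E W J i (g i)) ∧ ∀ i j, i ≠ j → Disjoint (g i) (g j)

/-- the search with all its parameters -/
def runB (t : ℕ) (E : List (ℕ × ℕ)) (W : List ℕ) (J : List (List ℕ)) : Bool :=
  recF (rC t) (lC t) (dC t) ((E, flg E W J), ([], (W, J)))

theorem run_iff (h : TC E J U W J) {t : ℕ} (ht : KF W.toFinset (SpU E W.toFinset J) t) :
    runB t E W J = true ↔ Sol E W J := by
  have ht' : KF W.toFinset (SpF E (flg E W J)) t := by
    intro X Y hX hY hXc hYc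
    obtain ⟨x, hx, y, hy, hxy⟩ := ht X Y hX hY hXc hYc
    exact ⟨x, hx, y, hy, fun hs => hxy (spF_iff.1 hs)⟩
  unfold runB
  rw [recF_iff h.toLC (ctxF h) ht']
  unfold Sol
  constructor
  · rintro ⟨g, hg, hd⟩
    exact ⟨g, fun i => (good_iff h i _).2 (hg i), hd⟩
  · rintro ⟨g, hg, hd⟩
    exact ⟨g, fun i => (good_iff h i _).1 (hg i), hd⟩

/-- the search for a biclique of split pairs -/
def bicF (t : ℕ) : ℕ → ((List (ℕ × ℕ) × List (List ℕ)) × (List ℕ × List ℕ)) → Bool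
  | 0, x => decide (t ≤ x.2.2.length)
  | s + 1, x => x.2.1.any fun v =>
      bicF t s (x.1, (rm v x.2.1, x.2.2.filter fun y => spF x.1.1 x.1.2 v y))

theorem poly_bicF (t : ℕ) : ∀ s, Poly (bicF t s)
  | 0 => by
    have e : bicF t 0 = fun x => decide (t ≤ x.2.2.length) := by
      funext x; rfl
    rw [e]
    fun_prop
  | s + 1 => by
    have ih := poly_bicF t s
    have e : bicF t (s + 1) = fun x => x.2.1.any fun v =>
      bicF t s (x.1, (rm v x.2.1, x.2.2.filter fun y => spF x.1.1 x.1.2 v y)) := by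
      funext x; rfl
    rw [e]
    generalize bicF t s = f at ih
    fun_prop

theorem bicF_eq (t : ℕ) (E : List (ℕ × ℕ)) (fl : List (List ℕ)) : ∀ (s : ℕ) (c d : List ℕ),
    bicF t s ((E, fl), (c, d)) = bicG (spF E fl) t s c d
  | 0, _, _ => rfl
  | s + 1, c, d => by
    unfold bicF bicG
    simp only [bicF_eq t E fl s]

/-- there is no biclique of split pairs -/
def nbB (t : ℕ) (E : List (ℕ × ℕ)) (W : List ℕ) (J : List (List ℕ)) : Bool :=
  !bicF t t ((E, flg E W J), (W, W))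

theorem nbB_iff (hW : W.Nodup) (t : ℕ) :
    nbB t E W J = true ↔ KF W.toFinset (SpU E W.toFinset J) t := by
  unfold nbB
  rw [Bool.not_eq_true', ← Bool.not_eq_true, bicF_eq, bicG_kf _ t hW, not_not]
  unfold KF
  constructor
  · intro h X Y hX hY hXc hYc
    obtain ⟨x, hx, y, hy, hxy⟩ := h X Y hX hY hXc hYc
    exact ⟨x, hx, y, hy, fun hs => hxy (spF_iff.2 hs)⟩
  · intro h X Y hX hY hXc hYc
    obtain ⟨x, hx, y, hy, hxy⟩ := h X Y hX hY hXc hYc
    exact ⟨x, hx, y, hy, fun hs => hxy (spF_iff.1 hs)⟩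

section
variable {γ : Type} [TEnc γ] {E : γ → List (ℕ × ℕ)} {W : γ → List ℕ} {J : γ → List (List ℕ)}

@[fun_prop]
theorem poly_runB (t : ℕ) (hE : Poly E) (hW : Poly W) (hJ : Poly J) :
    Poly (fun x => runB t (E x) (W x) (J x)) := by
  have h := poly_recF (rC t) (lC t) (dC t)
  unfold runB
  generalize recF (rC t) (lC t) (dC t) = f at h
  fun_prop

@[fun_prop]
theorem poly_nbB (t : ℕ) (hE : Poly E) (hW : Poly W) (hJ : Poly J) :
    Poly (fun x => nbB t (E x) (W x) (J x)) := by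
  have h := poly_bicF t t
  unfold nbB
  generalize bicF t t = f at h
  fun_prop

end

end Pool.Agent.Helper878_bg
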