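import Pool.Agent.Helper878_bg.CoreF
import Pool.Agent.Helper878_bs.Comp

/-!
# The search with inactive terminal sets
-/

set_option autoImplicit false
set_option linter.unusedSectionVars false

namespace Pool.Agent.Helper878_bg

open Finset Pool.Agent.NPC Pool.Agent.H671R2.SF Pool.Agent.Helper878_dcs Pool.Agent.Helper878_mm
open Pool.Agent.Helper878_bs
open scoped Classical

/-- `a` and `b` see different parts of `Z` -/
def opB (E : List (ℕ × ℕ)) (Z : List ℕ) (a b : ℕ) : Bool :=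
  (Z.any fun x => adj E a x) && ((Z.any fun y => adj E b y) && (Z.all fun x => Z.all fun y =>
    !adj E a x || (!adj E b y || (!decide (x = y) && !adj E x y))))

/-- `a` and `b` split a terminal set of the list -/
def spF (E : List (ℕ × ℕ)) (fl : List (List ℕ)) (a b : ℕ) : Bool :=
  fl.any fun Z => opB E Z a b && !adj E a b

/-- an adjacent pair of `W` connects `Z` -/
def jnB (E : List (ℕ × ℕ)) (W Z : List ℕ) : Bool :=
  W.any fun a => W.any fun b => opB E Z a b && adj E a b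

/-- the active terminal sets -/
def flg (E : List (ℕ × ℕ)) (W : List ℕ) (J : List (List ℕ)) : List (List ℕ) :=
  J.filter fun Z => jnB E W Z

/-- the relation computed by `spF` -/
def SpF (E : List (ℕ × ℕ)) (fl : List (List ℕ)) (a b : ℕ) : Prop := spF E fl a b = true

/-- an adjacent pair connecting the active terminal set `Z` -/
def prF (E : List (ℕ × ℕ)) (fl : List (List ℕ)) (Z : List ℕ) (a b : ℕ) : Bool :=
  fB fl Z && prB E Z a b

/-- the final test with parameters `r` and `l` -/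
def leafF (r l : ℕ) (E : List (ℕ × ℕ)) (fl : List (List ℕ)) (Ul W : List ℕ)
    (J : List (List ℕ)) : Bool :=
  sglB E W J || (decide (l ≤ Ul.length) && ((W.all fun w =>
    decide ((Ul.filter fun u => spF E fl w u).length ≤ r)) && coreF E fl W J))

/-- the search with depth `m` -/
def recF (r l : ℕ) : ℕ → St → Bool
  | 0, x => leafF r l x.1.1 x.1.2 x.2.1 x.2.2.1 x.2.2.2
  | m + 1, x => leafF r l x.1.1 x.1.2 x.2.1 x.2.2.1 x.2.2.2 ||
      ((x.2.2.1.any fun a => recF r l m (x.1, (x.2.1, (rm a x.2.2.1, x.2.2.2)))) ||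
      ((x.2.2.2.any fun Z => x.2.2.1.any fun a => zB x.1.1 Z a &&
        recF r l m (x.1, (x.2.1, (rm a x.2.2.1, rmZ Z x.2.2.2)))) ||
      (x.2.2.2.any fun Z => x.2.2.1.any fun a => x.2.2.1.any fun b => prF x.1.1 x.1.2 Z a b &&
        recF r l m (x.1, (a :: b :: x.2.1, (rm b (rm a x.2.2.1), rmZ Z x.2.2.2))))))

section
variable {γ : Type} [TEnc γ] {E : γ → List (ℕ × ℕ)} {W Z Ul : γ → List ℕ}
  {J fl : γ → List (List ℕ)} {u v : γ → ℕ}

@[fun_prop]
theorem poly_opB (hE : Poly E) (hZ : Poly Z) (hu : Poly u) (hv : Poly v) :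
    Poly (fun x => opB (E x) (Z x) (u x) (v x)) := by
  unfold opB; fun_prop

@[fun_prop]
theorem poly_spF (hE : Poly E) (hf : Poly fl) (hu : Poly u) (hv : Poly v) :
    Poly (fun x => spF (E x) (fl x) (u x) (v x)) := by
  unfold spF; fun_prop

@[fun_prop]
theorem poly_jnB (hE : Poly E) (hW : Poly W) (hZ : Poly Z) :
    Poly (fun x => jnB (E x) (W x) (Z x)) := by
  unfold jnB; fun_prop

@[fun_prop]
theorem poly_flg (hE : Poly E) (hW : Poly W) (hJ : Poly J) :
    Poly (fun x => flg (E x) (W x) (J x)) := by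
  unfold flg; fun_prop

@[fun_prop]
theorem poly_prF (hE : Poly E) (hf : Poly fl) (hZ : Poly Z) (hu : Poly u) (hv : Poly v) :
    Poly (fun x => prF (E x) (fl x) (Z x) (u x) (v x)) := by
  unfold prF; fun_prop

@[fun_prop]
theorem poly_leafF (r l : ℕ) (hE : Poly E) (hf : Poly fl) (hU : Poly Ul) (hW : Poly W)
    (hJ : Poly J) : Poly (fun x => leafF r l (E x) (fl x) (Ul x) (W x) (J x)) := by
  unfold leafF; fun_prop

end

theorem poly_recF (r l : ℕ) : ∀ m, Poly (recF r l m)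
  | 0 => by
    have e : recF r l 0 = fun x : St => leafF r l x.1.1 x.1.2 x.2.1 x.2.2.1 x.2.2.2 := by
      funext x; rfl
    rw [e]
    fun_prop
  | m + 1 => by
    have ih := poly_recF r l m
    have e : recF r l (m + 1) = fun x : St => leafF r l x.1.1 x.1.2 x.2.1 x.2.2.1 x.2.2.2 ||
      ((x.2.2.1.any fun a => recF r l m (x.1, (x.2.1, (rm a x.2.2.1, x.2.2.2)))) ||
      ((x.2.2.2.any fun Z => x.2.2.1.any fun a => zB x.1.1 Z a &&
        recF r l m (x.1, (x.2.1, (rm a x.2.2.1, rmZ Z x.2.2.2)))) ||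
      (x.2.2.2.any fun Z => x.2.2.1.any fun a => x.2.2.1.any fun b => prF x.1.1 x.1.2 Z a b &&
        recF r l m (x.1, (a :: b :: x.2.1, (rm b (rm a x.2.2.1), rmZ Z x.2.2.2)))))) := by
      funext x; rfl
    rw [e]
    generalize recF r l m = f at ih
    fun_prop

variable {E : List (ℕ × ℕ)} {Zs : List (List ℕ)} {W : List ℕ} {J : List (List ℕ)}

theorem prF_iff {Z : List ℕ} {a b : ℕ} : prF E Zs Z a b = true ↔
    f3 E Zs Z a = 1 ∧ f3 E Zs Z b = 2 ∧ (GG E).Adj a b := by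
  unfold prF
  rw [Bool.and_eq_true, pr_iff]
  constructor
  · rintro ⟨h, h1, h2, h3⟩
    exact ⟨(f3_on h).trans h1, (f3_on h).trans h2, h3⟩
  · rintro ⟨h1, h2, h3⟩
    have h := f3_two h2
    rw [f3_on h] at h1 h2
    exact ⟨h, h1, h2, h3⟩

/-- an option, as a predicate on terminal sets -/
abbrev GdF (E : List (ℕ × ℕ)) (Zs : List (List ℕ)) (W : List ℕ) (J : List (List ℕ)) (i : {Z // Z ∈ J})
    (s : Finset ℕ) : Prop := Good W.toFinset (sgF E Zs J) (GG E).Adj i s

/-- the relation between a state and the choices made so far -/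
structure InvF (E : List (ℕ × ℕ)) (Zs : List (List ℕ)) (W0 : List ℕ) (J0 : List (List ℕ)) (Ul W : List ℕ)
    (J : List (List ℕ)) (o : {Z // Z ∈ J0} → Finset ℕ) (R : Finset {Z // Z ∈ J0}) : Prop where
  hW : ∀ w ∈ W, w ∈ W0
  hWn : W.Nodup
  hJ : ∀ Z ∈ J, Z ∈ J0
  hJn : J.Nodup
  good : ∀ i, i.1 ∉ J → GdF E Zs W0 J0 i (o i)
  disW : ∀ i, i.1 ∉ J → ∀ x ∈ o i, x ∉ W
  dis : ∀ i j, i.1 ∉ J → j.1 ∉ J → i ≠ j → Disjoint (o i) (o j)
  hR : ∀ i ∈ R, i.1 ∉ J ∧ ∃ a b, SP W0.toFinset (sgF E Zs J0) i (o i) a b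
  hU : ∀ u, u ∈ R.biUnion o → u ∈ Ul
  hUl : Ul.length ≤ 2 * R.card

section
variable {W0 : List ℕ} {J0 : List (List ℕ)} {Ul : List ℕ} {o : {Z // Z ∈ J0} → Finset ℕ}
  {R : Finset {Z // Z ∈ J0}}

theorem InvF.lc (h : InvF E Zs W0 J0 Ul W J o R) (h0 : LC W0 J0) : LC W J where
  hWn := h.hWn
  hJn := h.hJn
  hne := fun Z hZ => h0.hne Z (h.hJ Z hZ)
  hJW := fun Z hZ z hz hw => h0.hJW Z (h.hJ Z hZ) z hz (h.hW z hw)
  hdis := fun Z hZ Z' hZ' hne => h0.hdis Z (h.hJ Z hZ) Z' (h.hJ Z' hZ') hne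

theorem InvF.del (h : InvF E Zs W0 J0 Ul W J o R) (a : ℕ) : InvF E Zs W0 J0 Ul (rm a W) J o R where
  hW := fun w hw => h.hW w (mem_rm.1 hw).1
  hWn := nodup_rm h.hWn
  hJ := h.hJ
  hJn := h.hJn
  good := h.good
  disW := fun i hi x hx hw => h.disW i hi x hx (mem_rm.1 hw).1
  dis := h.dis
  hR := h.hR
  hU := h.hU
  hUl := h.hUl

theorem InvF.step (h : InvF E Zs W0 J0 Ul W J o R) {Z : List ℕ} (hZ : Z ∈ J) {s : Finset ℕ}
    (hs : GdF E Zs W0 J0 ⟨Z, h.hJ Z hZ⟩ s) (hsW : ∀ x ∈ s, x ∈ W) {W' : List ℕ} (hn : W'.Nodup)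
    (hW' : ∀ w ∈ W', w ∈ W ∧ w ∉ s) :
    InvF E Zs W0 J0 Ul W' (rmZ Z J) (Function.update o ⟨Z, h.hJ Z hZ⟩ s) R := by
  set z : {Z // Z ∈ J0} := ⟨Z, h.hJ Z hZ⟩ with hz
  have hi : ∀ i : {Z // Z ∈ J0}, i.1 ∉ rmZ Z J → i ≠ z → i.1 ∉ J := by
    intro i h1 h2 h3
    exact h1 (mem_rmZ.2 ⟨h3, fun he => h2 (Subtype.ext he)⟩)
  have hRz : ∀ i ∈ R, i ≠ z := fun i hiR he => (h.hR i hiR).1 (by rw [he]; exact hZ)
  have hRb : R.biUnion (Function.update o z s) = R.biUnion o :=
    Finset.biUnion_congr rfl fun i hiR => Function.update_of_ne (hRz i hiR) _ _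
  refine ⟨fun w hw => h.hW w (hW' w hw).1, hn, fun Y hY => h.hJ Y (mem_rmZ.1 hY).1,
    nodup_rmZ h.hJn, ?_, ?_, ?_, ?_, ?_, h.hUl⟩
  · intro i h1
    by_cases e : i = z
    · rw [e, Function.update_self]; exact hs
    · rw [Function.update_of_ne e]; exact h.good i (hi i h1 e)
  · intro i h1 x hx hw
    by_cases e : i = z
    · rw [e, Function.update_self] at hx
      exact (hW' x hw).2 hx
    · rw [Function.update_of_ne e] at hx
      exact h.disW i (hi i h1 e) x hx (hW' x hw).1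
  · intro i j h1 h2 hij
    by_cases e : i = z
    · have f : j ≠ z := fun f => hij (e.trans f.symm)
      rw [e, Function.update_self, Function.update_of_ne f, disjoint_right]
      intro x hx hx'
      exact h.disW j (hi j h2 f) x hx (hsW x hx')
    · by_cases f : j = z
      · rw [f, Function.update_self, Function.update_of_ne e, disjoint_left]
        intro x hx hx'
        exact h.disW i (hi i h1 e) x hx (hsW x hx')
      · rw [Function.update_of_ne e, Function.update_of_ne f]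
        exact h.dis i j (hi i h1 e) (hi j h2 f) hij
  · intro i hiR
    obtain ⟨h1, h2⟩ := h.hR i hiR
    refine ⟨fun h3 => h1 (mem_rmZ.1 h3).1, ?_⟩
    rw [Function.update_of_ne (hRz i hiR)]
    exact h2
  · intro u hu
    rw [hRb] at hu
    exact h.hU u hu

theorem InvF.addR (h : InvF E Zs W0 J0 Ul W J o R) {i : {Z // Z ∈ J0}} (hi : i ∉ R) (hiJ : i.1 ∉ J)
    {a b : ℕ} (hs : SP W0.toFinset (sgF E Zs J0) i (o i) a b) :
    InvF E Zs W0 J0 (a :: b :: Ul) W J o (insert i R) where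
  hW := h.hW
  hWn := h.hWn
  hJ := h.hJ
  hJn := h.hJn
  good := h.good
  disW := h.disW
  dis := h.dis
  hR := by
    intro j hj
    rcases mem_insert.1 hj with rfl | hj
    · exact ⟨hiJ, a, b, hs⟩
    · exact h.hR j hj
  hU := by
    intro u hu
    rw [biUnion_insert, mem_union] at hu
    rcases hu with hu | hu
    · rw [hs.hs, mem_insert, mem_singleton] at hu
      rcases hu with rfl | rfl <;> simp
    · exact List.mem_cons_of_mem _ (List.mem_cons_of_mem _ (h.hU u hu))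
  hUl := by
    rw [card_insert_of_notMem hi]
    have := h.hUl
    simp only [List.length_cons]
    omega

/-- soundness of the final test -/
theorem InvF.leaf (h : InvF E Zs W0 J0 Ul W J o R) (h0 : LC W0 J0) {t r : ℕ}
    (hC : Ctx W0.toFinset (sgF E Zs J0) (GG E).Adj (SpF E Zs)) (ht : KF W0.toFinset (SpF E Zs) t)
    (hl : leafF r (2 * (2 * r + 4 * t + 2 * c1 t)) E Zs Ul W J = true) :
    ∃ g : {Z // Z ∈ J0} → Finset ℕ, (∀ i, GdF E Zs W0 J0 i (g i)) ∧
      ∀ i j, i ≠ j → Disjoint (g i) (g j) := by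
  have hlc := h.lc h0
  -- combination of two solutions
  have comb : ∀ o1 : {Z // Z ∈ J} → Finset ℕ, (∀ i, o1 i ⊆ W.toFinset) →
      (∀ i j, i ≠ j → Disjoint (o1 i) (o1 j)) → ∀ i j : {Z // Z ∈ J0}, i ≠ j →
      Disjoint (if h : i.1 ∈ J then o1 ⟨i.1, h⟩ else o i)
        (if h : j.1 ∈ J then o1 ⟨j.1, h⟩ else o j) := by
    intro o1 h1 h2 i j hij
    by_cases hi : i.1 ∈ J <;> by_cases hj : j.1 ∈ J
    · rw [dif_pos hi, dif_pos hj]
      exact h2 _ _ fun he => hij (Subtype.ext (Subtype.mk.inj he))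
    · rw [dif_pos hi, dif_neg hj, disjoint_left]
      intro x hx hx'
      exact h.disW j hj x hx' (List.mem_toFinset.1 (h1 _ hx))
    · rw [dif_neg hi, dif_pos hj, disjoint_left]
      intro x hx hx'
      exact h.disW i hi x hx (List.mem_toFinset.1 (h1 _ hx'))
    · rw [dif_neg hi, dif_neg hj]
      exact h.dis i j hi hj hij
  have hWW : W.toFinset ⊆ W0.toFinset := fun w hw =>
    List.mem_toFinset.2 (h.hW w (List.mem_toFinset.1 hw))
  unfold leafF at hl
  rw [Bool.or_eq_true, Bool.and_eq_true, Bool.and_eq_true, decide_eq_true_eq,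
    List.all_eq_true] at hl
  rcases hl with hl | ⟨hl1, hl2, hl3⟩
  · rw [sgl_iff hlc] at hl
    obtain ⟨o1, h1, h2⟩ := hl
    have h1' : ∀ i, o1 i ⊆ W.toFinset := by
      intro i
      obtain ⟨w, hw, _, e⟩ := h1 i
      rw [e]
      exact singleton_subset_iff.2 (List.mem_toFinset.2 hw)
    refine ⟨fun i => if h : i.1 ∈ J then o1 ⟨i.1, h⟩ else o i, fun i => ?_,
      comb o1 h1' h2⟩
    by_cases hi : i.1 ∈ J
    · dsimp only
      rw [dif_pos hi]
      obtain ⟨w, hw, hz, e⟩ := h1 ⟨i.1, hi⟩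
      rw [e]
      exact Or.inl ⟨w, hWW (List.mem_toFinset.2 hw), f3_zero.2 hz, rfl⟩
    · dsimp only
      rw [dif_neg hi]
      exact h.good i hi
  · rw [coreF_iff hlc] at hl3
    obtain ⟨o1, h1, h2⟩ := hl3
    have h1' : ∀ i, o1 i ⊆ W.toFinset := fun i => opt_sub (h1 i)
    set o2 : {Z // Z ∈ J0} → Finset ℕ := fun i => if h : i.1 ∈ J then o1 ⟨i.1, h⟩ else o i with ho2
    have e1 : ∀ (i : {Z // Z ∈ J0}) (hi : i.1 ∈ J), o2 i = o1 ⟨i.1, hi⟩ := fun i hi => by
      rw [ho2]; exact dif_pos hi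
    have e2 : ∀ i : {Z // Z ∈ J0}, i.1 ∉ J → o2 i = o i := fun i hi => by
      rw [ho2]; exact dif_neg hi
    have hrel : Rel W0.toFinset (sgF E Zs J0) o2 := by
      refine ⟨fun i => ?_, comb o1 h1' h2⟩
      by_cases hi : i.1 ∈ J
      · rw [e1 i hi]
        rcases h1 ⟨i.1, hi⟩ with ⟨c, hc, h3, h4⟩ | ⟨a, ha, b, hb, h3, h4, h5⟩
        · exact Or.inl ⟨c, hWW hc, h3, h4⟩
        · exact Or.inr ⟨a, hWW ha, b, hWW hb, h3, h4, h5⟩
      · rw [e2 i hi]; exact (h.good i hi).isOpt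
    have hRb : R.biUnion o2 = R.biUnion o :=
      Finset.biUnion_congr rfl fun i hi => e2 i (h.hR i hi).1
    refine hC.sound ht r hrel (univ.filter fun i => i.1 ∉ J) R W.toFinset ?_ ?_ ?_ ?_ ?_ ?_
    · intro i hi
      rw [e2 i (mem_filter.1 hi).2]
      exact h.good i (mem_filter.1 hi).2
    · intro i hi
      exact mem_filter.2 ⟨mem_univ _, (h.hR i hi).1⟩
    · intro j hj
      rw [e2 j (h.hR j hj).1]
      exact (h.hR j hj).2
    · intro i hi
      have hi' : i.1 ∈ J := by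
        by_contra hn
        exact hi (mem_filter.2 ⟨mem_univ _, hn⟩)
      rw [e1 i hi']
      exact h1' _
    · intro x hx
      rw [hRb]
      have h3 := hl2 x (List.mem_toFinset.1 hx)
      rw [decide_eq_true_eq] at h3
      refine le_trans (le_trans (card_le_card ?_) (List.toFinset_card_le _)) h3
      intro u hu
      rw [mem_filter] at hu
      rw [List.mem_toFinset, List.mem_filter]
      exact ⟨h.hU u hu.1, hu.2⟩
    · have := h.hUl
      omega

/-- soundness of the search -/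
theorem recF_sound (h0 : LC W0 J0) {t r : ℕ}
    (hC : Ctx W0.toFinset (sgF E Zs J0) (GG E).Adj (SpF E Zs)) (ht : KF W0.toFinset (SpF E Zs) t) :
    ∀ (m : ℕ) (Ul W : List ℕ) (J : List (List ℕ)) (o : {Z // Z ∈ J0} → Finset ℕ)
      (R : Finset {Z // Z ∈ J0}), InvF E Zs W0 J0 Ul W J o R →
      recF r (2 * (2 * r + 4 * t + 2 * c1 t)) m ((E, Zs), (Ul, (W, J))) = true →
      ∃ g : {Z // Z ∈ J0} → Finset ℕ, (∀ i, GdF E Zs W0 J0 i (g i)) ∧
        ∀ i j, i ≠ j → Disjoint (g i) (g j) := by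
  intro m
  induction m with
  | zero =>
    intro Ul W J o R h hr
    exact h.leaf h0 hC ht hr
  | succ m ih =>
    intro Ul W J o R h hr
    unfold recF at hr
    dsimp only at hr
    rw [Bool.or_eq_true, Bool.or_eq_true, Bool.or_eq_true] at hr
    simp only [List.any_eq_true, Bool.and_eq_true] at hr
    rcases hr with hr | ⟨a, ha, hr⟩ | ⟨Z, hZ, a, ha, hz, hr⟩ | ⟨Z, hZ, a, ha, b, hb, hp, hr⟩
    · exact h.leaf h0 hC ht hr
    · exact ih _ _ _ _ _ (h.del a) hr
    · refine ih _ _ _ _ _ (h.step hZ (s := {a}) ?_ ?_ (nodup_rm h.hWn) ?_) hr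
      · exact Or.inl ⟨a, List.mem_toFinset.2 (h.hW a ha), f3_zero.2 hz, rfl⟩
      · intro x hx
        rw [mem_singleton.1 hx]; exact ha
      · intro w hw
        rw [mem_rm] at hw
        exact ⟨hw.1, fun hx => hw.2 (mem_singleton.1 hx)⟩
    · obtain ⟨p1, p2, p3⟩ := prF_iff.1 hp
      have hZ0 := h.hJ Z hZ
      have haW := List.mem_toFinset.2 (h.hW a ha)
      have hbW := List.mem_toFinset.2 (h.hW b hb)
      have hst := h.step hZ (s := {a, b}) (W' := rm b (rm a W))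
        (Or.inr ⟨a, haW, b, hbW, p1, p2, p3, rfl⟩) (by
          intro x hx
          rw [mem_insert, mem_singleton] at hx
          rcases hx with rfl | rfl
          · exact ha
          · exact hb) (nodup_rm (nodup_rm h.hWn)) (by
          intro w hw
          rw [mem_rm, mem_rm] at hw
          refine ⟨hw.1.1, fun hx => ?_⟩
          rw [mem_insert, mem_singleton] at hx
          rcases hx with hx | hx
          · exact hw.1.2 hx
          · exact hw.2 hx)
      refine ih _ _ _ _ _ (hst.addR (i := ⟨Z, hZ0⟩) ?_ ?_ ?_) hr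
      · intro hR
        exact (h.hR _ hR).1 hZ
      · intro hm
        exact (mem_rmZ.1 hm).2 rfl
      · rw [Function.update_self]
        exact ⟨haW, hbW, p1, p2, rfl⟩

end

end Pool.Agent.Helper878_bg
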