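import Pool.Agent.Helper878_bg.OptF

/-!
# Deleting a bounded number of vertices
-/

set_option autoImplicit false
set_option linter.unusedSectionVars false

namespace Pool.Agent.Helper878_bg

open Finset Pool.Agent.NPC Pool.Agent.H671R2.SF Pool.Agent.Helper878_dcs Pool.Agent.Helper878_mm
open Pool.Agent.Helper878_bs
open scoped Classical

/-- a state: the edges, the remaining nonterminals and the remaining terminal sets -/
abbrev S3 : Type := List (ℕ × ℕ) × (List ℕ × List (List ℕ))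

/-- guess what happens to at most `m` vertices -/
def topB (t : ℕ) : ℕ → S3 → Bool
  | 0, x => nbB t x.1 x.2.1 x.2.2 && runB t x.1 x.2.1 x.2.2
  | m + 1, x => (nbB t x.1 x.2.1 x.2.2 && runB t x.1 x.2.1 x.2.2) ||
      ((x.2.1.any fun a => topB t m (x.1, (rm a x.2.1, x.2.2))) ||
      ((x.2.2.any fun Z => x.2.1.any fun a => zB x.1 Z a &&
        topB t m (x.1, (rm a x.2.1, rmZ Z x.2.2))) ||
      (x.2.2.any fun Z => x.2.1.any fun a => x.2.1.any fun b => prB x.1 Z a b &&
        topB t m (x.1, (rm b (rm a x.2.1), rmZ Z x.2.2)))))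

/-- some at most `m` vertices and terminal sets meet all bicliques -/
def nearB (t : ℕ) : ℕ → S3 → Bool
  | 0, x => nbB t x.1 x.2.1 x.2.2
  | m + 1, x => nbB t x.1 x.2.1 x.2.2 ||
      ((x.2.1.any fun a => nearB t m (x.1, (rm a x.2.1, x.2.2))) ||
      (x.2.2.any fun Z => nearB t m (x.1, (x.2.1, rmZ Z x.2.2))))

theorem poly_topB (t : ℕ) : ∀ m, Poly (topB t m)
  | 0 => by
    have e : topB t 0 = fun x : S3 => nbB t x.1 x.2.1 x.2.2 && runB t x.1 x.2.1 x.2.2 := by
      funext x; rfl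
    rw [e]
    fun_prop
  | m + 1 => by
    have ih := poly_topB t m
    have e : topB t (m + 1) = fun x : S3 =>
      (nbB t x.1 x.2.1 x.2.2 && runB t x.1 x.2.1 x.2.2) ||
      ((x.2.1.any fun a => topB t m (x.1, (rm a x.2.1, x.2.2))) ||
      ((x.2.2.any fun Z => x.2.1.any fun a => zB x.1 Z a &&
        topB t m (x.1, (rm a x.2.1, rmZ Z x.2.2))) ||
      (x.2.2.any fun Z => x.2.1.any fun a => x.2.1.any fun b => prB x.1 Z a b &&
        topB t m (x.1, (rm b (rm a x.2.1), rmZ Z x.2.2))))) := by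
      funext x; rfl
    rw [e]
    generalize topB t m = f at ih
    fun_prop

theorem poly_nearB (t : ℕ) : ∀ m, Poly (nearB t m)
  | 0 => by
    have e : nearB t 0 = fun x : S3 => nbB t x.1 x.2.1 x.2.2 := by
      funext x; rfl
    rw [e]
    fun_prop
  | m + 1 => by
    have ih := poly_nearB t m
    have e : nearB t (m + 1) = fun x : S3 => nbB t x.1 x.2.1 x.2.2 ||
      ((x.2.1.any fun a => nearB t m (x.1, (rm a x.2.1, x.2.2))) ||
      (x.2.2.any fun Z => nearB t m (x.1, (x.2.1, rmZ Z x.2.2)))) := by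
      funext x; rfl
    rw [e]
    generalize nearB t m = f at ih
    fun_prop

variable {E : List (ℕ × ℕ)} {U : Finset ℕ} {W : List ℕ} {J : List (List ℕ)}

theorem TC_mono (h : TC E J U W J) {W' : List ℕ} {J' : List (List ℕ)} (hW : ∀ w ∈ W', w ∈ W)
    (hWn : W'.Nodup) (hJ : ∀ Z ∈ J', Z ∈ J) (hJn : J'.Nodup) : TC E J' U W' J' where
  lc :=
    { hK := h.lc.hK
      hWn := hWn
      hWU := fun w hw => h.lc.hWU (List.mem_toFinset.2 (hW w (List.mem_toFinset.1 hw)))
      hJn := hJn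
      hJU := fun Z hZ => h.lc.hJU Z (hJ Z hZ)
      hJW := fun Z hZ => (h.lc.hJW Z (hJ Z hZ)).mono_right fun w hw =>
        List.mem_toFinset.2 (hW w (List.mem_toFinset.1 hw))
      hne := fun Z hZ => h.lc.hne Z (hJ Z hZ)
      hdis := fun Z hZ Z' hZ' => h.lc.hdis Z (hJ Z hZ) Z' (hJ Z' hZ')
      hdc := fun Z hZ => h.lc.hdc Z (hJ Z hZ) }
  tp := h.tp
  sub := fun _ hZ => hZ

theorem good_mono {W' : List ℕ} {J' : List (List ℕ)} {i : {Z // Z ∈ J}} {j : {Z // Z ∈ J'}}
    (hij : i.1 = j.1) {s : Finset ℕ} (hs : ∀ x ∈ s, x ∈ W') (hg : Gd E W J i s) :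
    Gd E W' J' j s := by
  rcases hg with ⟨c, _, h1, h2⟩ | ⟨a, _, b, _, h1, h2, h3, h4⟩
  · refine Or.inl ⟨c, List.mem_toFinset.2 (hs c (by rw [h2]; simp)), ?_, h2⟩
    unfold sgJ at h1 ⊢
    rw [← hij]; exact h1
  · refine Or.inr ⟨a, List.mem_toFinset.2 (hs a (by rw [h4]; simp)), b,
      List.mem_toFinset.2 (hs b (by rw [h4]; simp)), ?_, ?_, h3, h4⟩
    · unfold sgJ at h1 ⊢
      rw [← hij]; exact h1
    · unfold sgJ at h2 ⊢
      rw [← hij]; exact h2

theorem good_mem {i : {Z // Z ∈ J}} {s : Finset ℕ} (hg : Gd E W J i s) : ∀ x ∈ s, x ∈ W :=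
  fun _ hx => List.mem_toFinset.1 (opt_sub (Good.isOpt hg) hx)

theorem Sol.del {a : ℕ} (h : Sol E (rm a W) J) : Sol E W J := by
  obtain ⟨g, hg, hd⟩ := h
  exact ⟨g, fun i => good_mono rfl (fun x hx => (mem_rm.1 (good_mem (hg i) x hx)).1) (hg i), hd⟩

theorem Sol.step {Z : List ℕ} (hZ : Z ∈ J) {s : Finset ℕ} (hs : Gd E W J ⟨Z, hZ⟩ s)
    {W' : List ℕ} (hW' : ∀ w ∈ W', w ∈ W ∧ w ∉ s) (h : Sol E W' (rmZ Z J)) : Sol E W J := by
  obtain ⟨g, hg, hd⟩ := h
  have hm : ∀ i : {Z // Z ∈ J}, i.1 ≠ Z → i.1 ∈ rmZ Z J := fun i hi => mem_rmZ.2 ⟨i.2, hi⟩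
  refine ⟨fun i => if h : i.1 = Z then s else g ⟨i.1, hm i h⟩, fun i => ?_, fun i j hij => ?_⟩
  · by_cases e : i.1 = Z
    · dsimp only
      rw [dif_pos e]
      exact good_mono (j := i) e.symm (good_mem hs) hs
    · dsimp only
      rw [dif_neg e]
      exact good_mono (i := ⟨i.1, hm i e⟩) rfl
        (fun x hx => (hW' x (good_mem (hg ⟨i.1, hm i e⟩) x hx)).1) (hg ⟨i.1, hm i e⟩)
  · dsimp only
    by_cases e : i.1 = Z <;> by_cases f : j.1 = Z
    · exact absurd (Subtype.ext (e.trans f.symm)) hij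
    · rw [dif_pos e, dif_neg f, disjoint_right]
      intro x hx hx'
      exact (hW' x (good_mem (hg ⟨j.1, hm j f⟩) x hx)).2 hx'
    · rw [dif_neg e, dif_pos f, disjoint_left]
      intro x hx hx'
      exact (hW' x (good_mem (hg ⟨i.1, hm i e⟩) x hx)).2 hx'
    · rw [dif_neg e, dif_neg f]
      exact hd _ _ fun he => hij (Subtype.ext (Subtype.mk.inj he))

theorem top_sound {t : ℕ} : ∀ (m : ℕ) (W : List ℕ) (J : List (List ℕ)), TC E J U W J →
    topB t m (E, (W, J)) = true → Sol E W J := by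
  have leaf : ∀ (W : List ℕ) (J : List (List ℕ)), TC E J U W J →
      (nbB t E W J && runB t E W J) = true → Sol E W J := by
    intro W J h hl
    rw [Bool.and_eq_true] at hl
    exact (run_iff h ((nbB_iff h.lc.hWn t).1 hl.1)).1 hl.2
  intro m
  induction m with
  | zero => exact leaf
  | succ m ih =>
    intro W J h hr
    unfold topB at hr
    dsimp only at hr
    rw [Bool.or_eq_true, Bool.or_eq_true, Bool.or_eq_true] at hr
    simp only [List.any_eq_true, Bool.and_eq_true] at hr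
    rcases hr with hr | ⟨a, ha, hr⟩ | ⟨Z, hZ, a, ha, hz, hr⟩ | ⟨Z, hZ, a, ha, b, hb, hp, hr⟩
    · exact leaf W J h (by rw [Bool.and_eq_true]; exact hr)
    · exact (ih _ _ (TC_mono h (fun w hw => (mem_rm.1 hw).1) (nodup_rm h.lc.hWn)
        (fun Z hZ => hZ) h.lc.hJn) hr).del
    · refine Sol.step hZ (s := {a}) (W' := rm a W) ?_ ?_ (ih _ _ (TC_mono h
        (fun w hw => (mem_rm.1 hw).1) (nodup_rm h.lc.hWn) (fun Z hZ => (mem_rmZ.1 hZ).1)
        (nodup_rmZ h.lc.hJn)) hr)
      · exact Or.inl ⟨a, List.mem_toFinset.2 ha, sg3_zero.2 hz, rfl⟩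
      · intro w hw
        rw [mem_rm] at hw
        exact ⟨hw.1, fun hx => hw.2 (mem_singleton.1 hx)⟩
    · obtain ⟨p1, p2, p3⟩ := pr_iff.1 hp
      refine Sol.step hZ (s := {a, b}) (W' := rm b (rm a W)) ?_ ?_ (ih _ _ (TC_mono h
        (fun w hw => (mem_rm.1 (mem_rm.1 hw).1).1) (nodup_rm (nodup_rm h.lc.hWn))
        (fun Z hZ => (mem_rmZ.1 hZ).1) (nodup_rmZ h.lc.hJn)) hr)
      · exact Or.inr ⟨a, List.mem_toFinset.2 ha, b, List.mem_toFinset.2 hb, p1, p2, p3, rfl⟩
      · intro w hw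
        rw [mem_rm, mem_rm] at hw
        refine ⟨hw.1.1, fun hx => ?_⟩
        rw [mem_insert, mem_singleton] at hx
        rcases hx with hx | hx
        · exact hw.1.2 hx
        · exact hw.2 hx

theorem Jn_mono {U U' : Finset ℕ} {Z : List ℕ} (hU : U' ⊆ U) (h : Jn E U' Z) : Jn E U Z := by
  obtain ⟨a, ha, b, hb, h1⟩ := h
  exact ⟨a, hU ha, b, hU hb, h1⟩

theorem KF_mono {U U' : Finset ℕ} {J J' : List (List ℕ)} {t : ℕ} (hU : U' ⊆ U)
    (hJ : ∀ Z ∈ J', Z ∈ J) (h : KF U (SpU E U J) t) : KF U' (SpU E U' J') t := by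
  intro X Y hX hY hXc hYc
  obtain ⟨x, hx, y, hy, hxy⟩ := h X Y (hX.trans hU) (hY.trans hU) hXc hYc
  refine ⟨x, hx, y, hy, fun hs => hxy ?_⟩
  obtain ⟨Z, hZ, h1, h2⟩ := hs
  exact ⟨Z, hJ Z hZ, Jn_mono hU h1, h2⟩

/-- the terminal sets of `J` outside `T` -/
def mns (J : List (List ℕ)) (T : Finset (List ℕ)) : List (List ℕ) :=
  J.filter fun Z => !decide (Z ∈ T)

theorem mem_mns {T : Finset (List ℕ)} {Z : List ℕ} : Z ∈ mns J T ↔ Z ∈ J ∧ Z ∉ T := by
  unfold mns
  rw [List.mem_filter, Bool.not_eq_true', decide_eq_false_iff_not]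

theorem top_complete {t : ℕ} : ∀ (m : ℕ) (S : Finset ℕ) (T : Finset (List ℕ)) (W : List ℕ)
    (J : List (List ℕ)), TC E J U W J → S ⊆ W.toFinset → (∀ Z ∈ T, Z ∈ J) →
    S.card + T.card ≤ m → KF (W.toFinset \ S) (SpU E (W.toFinset \ S) (mns J T)) t →
    Sol E W J → topB t m (E, (W, J)) = true := by
  have leaf : ∀ (W : List ℕ) (J : List (List ℕ)), TC E J U W J →
      KF (W.toFinset \ ∅) (SpU E (W.toFinset \ ∅) (mns J ∅)) t → Sol E W J →
      (nbB t E W J && runB t E W J) = true := by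
    intro W J h hk hs
    have hk' : KF W.toFinset (SpU E W.toFinset J) t :=
      KF_mono (by rw [sdiff_empty]) (fun Z hZ => mem_mns.2 ⟨hZ, notMem_empty Z⟩) hk
    rw [Bool.and_eq_true]
    exact ⟨(nbB_iff h.lc.hWn t).2 hk', (run_iff h hk').2 hs⟩
  intro m
  induction m with
  | zero =>
    intro S T W J h hS hT hc hk hs
    have h1 : S = ∅ := card_eq_zero.1 (by omega)
    have h2 : T = ∅ := card_eq_zero.1 (by omega)
    subst h1 h2
    exact leaf W J h hk hs
  | succ m ih =>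
    intro S T W J h hS hT hc hk hs
    unfold topB
    dsimp only
    rw [Bool.or_eq_true, Bool.or_eq_true, Bool.or_eq_true]
    simp only [List.any_eq_true]
    have hsol := hs
    obtain ⟨g, hg, hd⟩ := hs
    by_cases hex : ∃ i : {Z // Z ∈ J}, i.1 ∈ T ∨ ∃ s ∈ S, s ∈ g i
    · obtain ⟨i, hi⟩ := hex
      have rest : ∀ W' : List ℕ, (∀ w ∈ W, w ∉ g i → w ∈ W') → Sol E W' (rmZ i.1 J) := by
        intro W' hW'
        have hm : ∀ j : {Z // Z ∈ rmZ i.1 J}, j.1 ∈ J := fun j => (mem_rmZ.1 j.2).1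
        refine ⟨fun j => g ⟨j.1, hm j⟩, fun j => ?_, fun j k hjk => hd _ _ fun he =>
          hjk (Subtype.ext (Subtype.mk.inj he))⟩
        refine good_mono (i := ⟨j.1, hm j⟩) rfl (fun x hx => ?_) (hg ⟨j.1, hm j⟩)
        refine hW' x (good_mem (hg ⟨j.1, hm j⟩) x hx) fun hxi => ?_
        refine disjoint_left.1 (hd ⟨j.1, hm j⟩ i fun he => ?_) hx hxi
        exact (mem_rmZ.1 j.2).2 (congrArg Subtype.val he)
      have hce : (S \ g i).card + (T.erase i.1).card ≤ m := by
        have c1 : (S \ g i).card ≤ S.card := card_le_card sdiff_subset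
        have c2 : (T.erase i.1).card ≤ T.card := card_le_card (erase_subset _ _)
        rcases hi with hi | ⟨s, hsS, hsi⟩
        · have := card_erase_of_mem hi
          have := card_pos.2 ⟨i.1, hi⟩
          omega
        · have : (S \ g i).card < S.card := by
            refine card_lt_card ⟨sdiff_subset, fun hsub => ?_⟩
            exact (mem_sdiff.1 (hsub hsS)).2 hsi
          omega
      have go : ∀ W' : List ℕ, W'.Nodup → (∀ w, w ∈ W' ↔ w ∈ W ∧ w ∉ g i) →
          topB t m (E, (W', rmZ i.1 J)) = true := by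
        intro W' hn hW'
        refine ih (S \ g i) (T.erase i.1) W' (rmZ i.1 J) ?_ ?_ ?_ hce ?_ ?_
        · exact TC_mono h (fun w hw => ((hW' w).1 hw).1) hn (fun Z hZ => (mem_rmZ.1 hZ).1)
            (nodup_rmZ h.lc.hJn)
        · intro x hx
          rw [mem_sdiff] at hx
          exact List.mem_toFinset.2 ((hW' x).2 ⟨List.mem_toFinset.1 (hS hx.1), hx.2⟩)
        · intro Z hZ
          rw [mem_erase] at hZ
          exact mem_rmZ.2 ⟨hT Z hZ.2, hZ.1⟩
        · refine KF_mono ?_ ?_ hk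
          · intro x hx
            rw [mem_sdiff, List.mem_toFinset, hW', mem_sdiff] at hx
            exact mem_sdiff.2 ⟨List.mem_toFinset.2 hx.1.1, fun hxS => hx.2 ⟨hxS, hx.1.2⟩⟩
          · intro Z hZ
            rw [mem_mns, mem_rmZ, mem_erase] at hZ
            exact mem_mns.2 ⟨hZ.1.1, fun hZT => hZ.2 ⟨hZ.1.2, hZT⟩⟩
        · exact rest W' fun w hw hwi => (hW' w).2 ⟨hw, hwi⟩
      rcases hg i with ⟨c, hcW, h1, h2⟩ | ⟨a, haW, b, hbW, h1, h2, h3, h4⟩
      · refine Or.inr (Or.inr (Or.inl ⟨i.1, i.2, c, List.mem_toFinset.1 hcW, ?_⟩))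
        rw [Bool.and_eq_true]
        refine ⟨sg3_zero.1 h1, go (rm c W) (nodup_rm h.lc.hWn) fun w => ?_⟩
        rw [mem_rm, h2, mem_singleton]
      · refine Or.inr (Or.inr (Or.inr ⟨i.1, i.2, a, List.mem_toFinset.1 haW, b,
          List.mem_toFinset.1 hbW, ?_⟩))
        rw [Bool.and_eq_true]
        refine ⟨pr_iff.2 ⟨h1, h2, h3⟩, go (rm b (rm a W)) (nodup_rm (nodup_rm h.lc.hWn))
          fun w => ?_⟩
        rw [mem_rm, mem_rm, h4, mem_insert, mem_singleton]
        tauto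
    · push Not at hex
      have hT0 : T = ∅ := by
        rw [eq_empty_iff_forall_notMem]
        intro Z hZ
        exact (hex ⟨Z, hT Z hZ⟩).1 hZ
      subst hT0
      by_cases hne : S.Nonempty
      swap
      · rw [not_nonempty_iff_eq_empty] at hne
        subst hne
        exact Or.inl (leaf W J h hk hsol)
      obtain ⟨s, hsS⟩ := hne
      have hsW : s ∈ W := List.mem_toFinset.1 (hS hsS)
      have hce : (S.erase s).card + (∅ : Finset (List ℕ)).card ≤ m := by
        rw [card_erase_of_mem hsS]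
        rw [card_empty] at hc ⊢
        omega
      refine Or.inr (Or.inl ⟨s, hsW, ih (S.erase s) ∅ (rm s W) J ?_ ?_ (by simp) hce ?_ ?_⟩)
      · exact TC_mono h (fun w hw => (mem_rm.1 hw).1) (nodup_rm h.lc.hWn)
          (fun Z hZ => hZ) h.lc.hJn
      · intro x hx
        rw [mem_erase] at hx
        exact List.mem_toFinset.2 (mem_rm.2 ⟨List.mem_toFinset.1 (hS hx.2), hx.1⟩)
      · refine KF_mono ?_ (fun Z hZ => hZ) hk
        intro x hx
        rw [mem_sdiff, List.mem_toFinset, mem_rm, mem_erase] at hx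
        exact mem_sdiff.2 ⟨List.mem_toFinset.2 hx.1.1, fun hxS => hx.2 ⟨hx.1.2, hxS⟩⟩
      · refine ⟨g, fun i => good_mono rfl (fun x hx => ?_) (hg i), hd⟩
        refine mem_rm.2 ⟨good_mem (hg i) x hx, fun he => (hex i).2 s hsS ?_⟩
        rw [← he]; exact hx

theorem near_iff' {t : ℕ} : ∀ (m : ℕ) (W : List ℕ) (J : List (List ℕ)), W.Nodup →
    (nearB t m (E, (W, J)) = true ↔ ∃ S ⊆ W.toFinset, ∃ T : Finset (List ℕ),
      (∀ Z ∈ T, Z ∈ J) ∧ S.card + T.card ≤ m ∧
      KF (W.toFinset \ S) (SpU E (W.toFinset \ S) (mns J T)) t) := by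
  have leaf : ∀ (W : List ℕ) (J : List (List ℕ)), KF W.toFinset (SpU E W.toFinset J) t ↔
      KF (W.toFinset \ ∅) (SpU E (W.toFinset \ ∅) (mns J ∅)) t := by
    intro W J
    constructor
    · exact KF_mono (by rw [sdiff_empty]) (fun Z hZ => (mem_mns.1 hZ).1)
    · exact KF_mono (by rw [sdiff_empty]) (fun Z hZ => mem_mns.2 ⟨hZ, notMem_empty Z⟩)
  intro m
  induction m with
  | zero =>
    intro W J hW
    unfold nearB
    dsimp only
    rw [nbB_iff hW, leaf]
    constructor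
    · intro h
      exact ⟨∅, empty_subset _, ∅, by simp, by simp, h⟩
    · rintro ⟨S, _, T, _, hc, hk⟩
      have h1 : S = ∅ := card_eq_zero.1 (by omega)
      have h2 : T = ∅ := card_eq_zero.1 (by omega)
      subst h1 h2
      exact hk
  | succ m ih =>
    intro W J hW
    unfold nearB
    dsimp only
    rw [Bool.or_eq_true, Bool.or_eq_true, List.any_eq_true, List.any_eq_true, nbB_iff hW, leaf]
    constructor
    · rintro (h | ⟨a, ha, h⟩ | ⟨Z, hZ, h⟩)
      · exact ⟨∅, empty_subset _, ∅, by simp, by simp, h⟩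
      · rw [ih _ _ (nodup_rm hW)] at h
        obtain ⟨S, hS, T, hT, hc, hk⟩ := h
        refine ⟨insert a S, ?_, T, hT, ?_, ?_⟩
        · refine insert_subset (List.mem_toFinset.2 ha) fun x hx => ?_
          exact List.mem_toFinset.2 (mem_rm.1 (List.mem_toFinset.1 (hS hx))).1
        · have := card_insert_le a S
          omega
        · refine KF_mono ?_ (fun Z hZ => hZ) hk
          intro x hx
          rw [mem_sdiff, mem_insert, List.mem_toFinset, not_or] at hx
          exact mem_sdiff.2 ⟨List.mem_toFinset.2 (mem_rm.2 ⟨hx.1, hx.2.1⟩), hx.2.2⟩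
      · rw [ih _ _ hW] at h
        obtain ⟨S, hS, T, hT, hc, hk⟩ := h
        refine ⟨S, hS, insert Z T, ?_, ?_, ?_⟩
        · intro Y hY
          rcases mem_insert.1 hY with rfl | hY
          · exact hZ
          · exact (mem_rmZ.1 (hT Y hY)).1
        · have := card_insert_le Z T
          omega
        · refine KF_mono (Subset.refl _) ?_ hk
          intro Y hY
          rw [mem_mns, mem_insert, not_or] at hY
          exact mem_mns.2 ⟨mem_rmZ.2 ⟨hY.1, hY.2.1⟩, hY.2.2⟩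
    · rintro ⟨S, hS, T, hT, hc, hk⟩
      by_cases hne : S.Nonempty
      · obtain ⟨s, hs⟩ := hne
        refine Or.inr (Or.inl ⟨s, List.mem_toFinset.1 (hS hs), (ih _ _ (nodup_rm hW)).2
          ⟨S.erase s, ?_, T, hT, ?_, ?_⟩⟩)
        · intro x hx
          rw [mem_erase] at hx
          exact List.mem_toFinset.2 (mem_rm.2 ⟨List.mem_toFinset.1 (hS hx.2), hx.1⟩)
        · have := card_erase_of_mem hs
          have := card_pos.2 ⟨s, hs⟩
          omega
        · refine KF_mono ?_ (fun Z hZ => hZ) hk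
          intro x hx
          rw [mem_sdiff, List.mem_toFinset, mem_rm, mem_erase] at hx
          exact mem_sdiff.2 ⟨List.mem_toFinset.2 hx.1.1, fun hxS => hx.2 ⟨hx.1.2, hxS⟩⟩
      · rw [not_nonempty_iff_eq_empty] at hne
        subst hne
        by_cases hne : T.Nonempty
        · obtain ⟨Z, hZ⟩ := hne
          refine Or.inr (Or.inr ⟨Z, hT Z hZ, (ih _ _ hW).2 ⟨∅, empty_subset _, T.erase Z,
            ?_, ?_, ?_⟩⟩)
          · intro Y hY
            rw [mem_erase] at hY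
            exact mem_rmZ.2 ⟨hT Y hY.2, hY.1⟩
          · have := card_erase_of_mem hZ
            have := card_pos.2 ⟨Z, hZ⟩
            omega
          · refine KF_mono (Subset.refl _) ?_ hk
            intro Y hY
            rw [mem_mns, mem_rmZ, mem_erase] at hY
            exact mem_mns.2 ⟨hY.1.1, fun hYT => hY.2 ⟨hY.1.2, hYT⟩⟩
        · rw [not_nonempty_iff_eq_empty] at hne
          subst hne
          exact Or.inl hk

end Pool.Agent.Helper878_bg
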